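import Pool.Agent.H48.IG.Step

/-!
# Infinite groups for which the four exponentials conjecture holds: infinitely many steps
-/

set_option autoImplicit false

namespace Pool.Agent.H48.IG

open Module

/-- a sequence in which every member depends on the preceding ones -/
noncomputable def seqOf {α : Type*} (f : (s : ℕ) → (Fin s → α) → α) (n : ℕ) : α :=
  f n (fun i : Fin n => seqOf f i.1)
termination_by n
decreasing_by exact i.2

theorem exists_seq {α : Type*} (P : (s : ℕ) → (Fin s → α) → α → Prop)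
    (h : ∀ s p, ∃ a, P s p a) : ∃ a : ℕ → α, ∀ s, P s (fun i : Fin s => a i) (a s) := by
  choose f hf using h
  refine ⟨seqOf f, fun s => ?_⟩
  have h1 := hf s (fun i : Fin s => seqOf f i)
  have h2 : seqOf f s = f s (fun i : Fin s => seqOf f i) := by rw [seqOf]
  rwa [← h2] at h1

/-- `V` and the first `s` members of `y` -/
noncomputable def stg (V : Submodule (algebraicClosure ℚ ℂ) ℂ) (y : ℕ → ℂ) (s : ℕ) :
    Submodule (algebraicClosure ℚ ℂ) ℂ :=
  V ⊔ Submodule.span (algebraicClosure ℚ ℂ) (Set.range fun i : Fin s => y i)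

theorem range_succ (y : ℕ → ℂ) (s : ℕ) : (Set.range fun i : Fin (s + 1) => y i) =
    (Set.range fun i : Fin s => y i) ∪ {y s} := by
  ext z
  simp only [Set.mem_range, Set.mem_union, Set.mem_singleton_iff]
  constructor
  · rintro ⟨i, rfl⟩
    rcases Nat.lt_succ_iff_lt_or_eq.1 i.2 with h | h
    · exact Or.inl ⟨⟨i, h⟩, rfl⟩
    · exact Or.inr (by rw [h])
  · rintro (⟨i, rfl⟩ | rfl)
    · exact ⟨⟨i, by omega⟩, rfl⟩
    · exact ⟨⟨s, by omega⟩, rfl⟩

theorem stg_zero (V : Submodule (algebraicClosure ℚ ℂ) ℂ) (y : ℕ → ℂ) : stg V y 0 = V := by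
  unfold stg
  rw [Set.range_eq_empty, Submodule.span_empty, sup_bot_eq]

theorem stg_succ (V : Submodule (algebraicClosure ℚ ℂ) ℂ) (y : ℕ → ℂ) (s : ℕ) :
    stg V y (s + 1) = stg V y s ⊔ Submodule.span (algebraicClosure ℚ ℂ) {y s} := by
  unfold stg
  rw [range_succ, Submodule.span_union, sup_assoc]

theorem stg_mono (V : Submodule (algebraicClosure ℚ ℂ) ℂ) (y : ℕ → ℂ) : Monotone (stg V y) :=
  monotone_nat_of_le_succ fun s => by rw [stg_succ]; exact le_sup_left

theorem le_stg (V : Submodule (algebraicClosure ℚ ℂ) ℂ) (y : ℕ → ℂ) (s : ℕ) : V ≤ stg V y s :=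
  le_sup_left

theorem finite_sup_span (V : Submodule (algebraicClosure ℚ ℂ) ℂ)
    (hV : Module.Finite (algebraicClosure ℚ ℂ) V) {s : ℕ} (p : Fin s → ℂ) :
    Module.Finite (algebraicClosure ℚ ℂ)
      (V ⊔ Submodule.span (algebraicClosure ℚ ℂ) (Set.range p) :
        Submodule (algebraicClosure ℚ ℂ) ℂ) := by
  have : Module.Finite (algebraicClosure ℚ ℂ)
      (Submodule.span (algebraicClosure ℚ ℂ) (Set.range p)) :=
    Module.Finite.span_of_finite _ (Set.finite_range p)
  infer_instance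

theorem finrank_sup_span (V : Submodule (algebraicClosure ℚ ℂ) ℂ)
    (hV : Module.Finite (algebraicClosure ℚ ℂ) V) {s : ℕ} (p : Fin s → ℂ) :
    finrank (algebraicClosure ℚ ℂ) (V ⊔ Submodule.span (algebraicClosure ℚ ℂ) (Set.range p) :
        Submodule (algebraicClosure ℚ ℂ) ℂ) ≤ finrank (algebraicClosure ℚ ℂ) V + s := by
  have : Module.Finite (algebraicClosure ℚ ℂ)
      (Submodule.span (algebraicClosure ℚ ℂ) (Set.range p)) :=
    Module.Finite.span_of_finite _ (Set.finite_range p)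
  refine (Submodule.finrank_add_le_finrank_add_finrank _ _).trans ?_
  gcongr
  have := finrank_range_le_card (R := algebraicClosure ℚ ℂ) p
  rwa [Fintype.card_fin] at this

theorem mem_stg (V : Submodule (algebraicClosure ℚ ℂ) ℂ) (y : ℕ → ℂ) {z : ℂ}
    (hz : z ∈ V ⊔ Submodule.span (algebraicClosure ℚ ℂ) (Set.range y)) :
    ∃ n, z ∈ stg V y n := by
  obtain ⟨v, hv, w, hw, rfl⟩ := Submodule.mem_sup.1 hz
  have h : ∃ n, w ∈ stg V y n := by
    refine Submodule.span_induction (p := fun w _ => ∃ n, w ∈ stg V y n) ?_ ⟨0, zero_mem _⟩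
      (fun a b _ _ ha hb => ?_) (fun c a _ ha => ?_) hw
    · rintro _ ⟨i, rfl⟩
      exact ⟨i + 1, Submodule.mem_sup_right (Submodule.subset_span ⟨⟨i, by omega⟩, rfl⟩)⟩
    · obtain ⟨n, hn⟩ := ha
      obtain ⟨k, hk⟩ := hb
      exact ⟨max n k, Submodule.add_mem _ (stg_mono V y (le_max_left n k) hn)
        (stg_mono V y (le_max_right n k) hk)⟩
    · obtain ⟨n, hn⟩ := ha
      exact ⟨n, Submodule.smul_mem _ c hn⟩
  obtain ⟨n, hn⟩ := h
  exact ⟨n, Submodule.add_mem _ (le_stg V y n hv) hn⟩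

/-- the rows of the singular matrices -/
theorem rows (V : Submodule (algebraicClosure ℚ ℂ) ℂ) (y : ℕ → ℂ)
    (h : ∀ s, Step (stg V y s) (y s)) (n : ℕ) : ∀ l m : Fin 2 → ℂ, (∀ j, l j ∈ stg V y n) →
    (∀ j, m j ∈ LF ⊔ V) → l 0 * m 1 = l 1 * m 0 → LinearIndependent (algebraicClosure ℚ ℂ) l →
    (∃ ρ : algebraicClosure ℚ ℂ, ∀ j, m j = ρ • l j) ∨ ∀ j, l j ∈ V := by
  induction n with
  | zero =>
    intro l m hl _ _ _
    rw [stg_zero] at hl
    exact Or.inr hl
  | succ n ih =>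
    intro l m hl hm hdet hli
    rw [stg_succ] at hl
    rcases (h n).2 l m hl (fun j => sup_le_sup_left (le_stg V y n) LF (hm j)) hdet hli with h1 | h1
    · exact Or.inl h1
    · exact ih l m h1 hm hdet hli

/-- the conjecture for all matrices with a row of products in `W` -/
theorem holds_of_steps (V : Submodule (algebraicClosure ℚ ℂ) ℂ) (y : ℕ → ℂ)
    (h : ∀ s, Step (stg V y s) (y s)) (u v : Fin 2 → ℂ)
    (hu : LinearIndependent (algebraicClosure ℚ ℂ) u)
    (hv : LinearIndependent (algebraicClosure ℚ ℂ) v)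
    (h0 : ∀ j, u 0 * v j ∈ V ⊔ Submodule.span (algebraicClosure ℚ ℂ) (Set.range y))
    (h1 : ∀ j, u 1 * v j ∈ LF ⊔ V) : ∀ j, u 0 * v j ∈ V := by
  obtain ⟨n0, hn0⟩ := mem_stg V y (h0 0)
  obtain ⟨n1, hn1⟩ := mem_stg V y (h0 1)
  have hu0 : u 0 ≠ 0 := hu.ne_zero 0
  have hli : LinearIndependent (algebraicClosure ℚ ℂ) (fun j => u 0 * v j) := by
    rw [Fintype.linearIndependent_iff]
    intro g hg
    refine Fintype.linearIndependent_iff.1 hv g ?_
    apply mul_left_cancel₀ hu0
    rw [mul_zero, ← hg, Finset.mul_sum]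
    exact Finset.sum_congr rfl fun j _ => by rw [mul_smul_comm]
  rcases rows V y h (max n0 n1) (fun j => u 0 * v j) (fun j => u 1 * v j) (by
    intro j
    fin_cases j
    · exact stg_mono V y (le_max_left _ _) hn0
    · exact stg_mono V y (le_max_right _ _) hn1) h1 (by ring) hli with ⟨ρ, hρ⟩ | h2
  · exfalso
    have hv0 : v 0 ≠ 0 := hv.ne_zero 0
    have h2 : u 1 = ρ • u 0 := by
      apply mul_right_cancel₀ hv0
      rw [smul_mul_assoc]
      exact hρ 0
    have h3 := Fintype.linearIndependent_iff.1 hu ![ρ, -1] (by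
      rw [Fin.sum_univ_two]
      simp only [Matrix.cons_val_zero, Matrix.cons_val_one]
      rw [h2, neg_smul, one_smul]
      ring) 1
    simp at h3
  · exact h2

end Pool.Agent.H48.IG
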