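import Mathlib
import Pool.Graph.R_pool_sql_team_seeded_35f281b4.K7.H62.PA.LinMap
import Pool.Graph.R_seed8.R350.GN

/-!
# Free tuples with different degree bounds

Versions with different degree bounds of `Pool.Agent.R350.FreeT`, `Pool.Agent.R350.FreeT.cons`,
`Pool.Agent.R350.FreeT.lin` and `Pool.Agent.K7.H62.PA.FreeT.lin_maps`.
-/

set_option autoImplicit false

namespace Pool.Agent.H48.IG

open Module Finset
open Pool.Agent.R350 (CoefIn GD polyU suppI coeff_subst eval_subst exists_lift free_poly
  pow_mul_mem_polyU pow_mul_mem_polyU_mul mvcoeff_mul_C mem_suppI suppI_one eq_zero_of_dual)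
open Pool.Agent.K7.H62.PA (aff aeval_aff degreeOf_aff degreeOf_map_le')

section

variable {k A : Type*} [Field k] [Field A] [Algebra k A]

/-- tuples which satisfy only formal relations with coefficients in `E L` up to the degrees `d` -/
structure FreeV {n : ℕ} (d : Fin n → ℕ) (L E : Submodule k A) (f : Fin n → A) : Prop where
  indep : ∀ P : MvPolynomial (Fin n) A, (∀ i, P.degreeOf i ≤ d i) → CoefIn E P →
    MvPolynomial.eval f P = 0 → P = 0
  free : ∀ P : MvPolynomial (Fin n) A, (∀ i, P.degreeOf i ≤ d i) → CoefIn (E * L) P →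
    MvPolynomial.eval f P = 0 → ∃ Q : Fin n → MvPolynomial (Fin n) A, (∀ i, CoefIn E (Q i)) ∧
      P = ∑ i, (MvPolynomial.X i - MvPolynomial.C (f i)) * Q i

theorem FreeV.nil (d : Fin 0 → ℕ) (L E : Submodule k A) (f : Fin 0 → A) : FreeV d L E f := by
  have h : ∀ P : MvPolynomial (Fin 0) A, MvPolynomial.eval f P = 0 → P = 0 := by
    intro P h0
    rw [MvPolynomial.eq_C_of_isEmpty P] at h0 ⊢
    rw [MvPolynomial.eval_C] at h0
    rw [h0, map_zero]
  exact ⟨fun P _ _ h0 => h P h0, fun P _ _ h0 => ⟨fun _ => 0, fun i => i.elim0, by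
    rw [h P h0]; simp⟩⟩

theorem degreeOf_substV {n : ℕ} {d : Fin (n + 1) → ℕ} (s : A) (P : MvPolynomial (Fin (n + 1)) A)
    (hP : ∀ i, P.degreeOf i ≤ d i) (i : Fin n) :
    MvPolynomial.degreeOf i
      (Polynomial.eval (MvPolynomial.C s) (MvPolynomial.finSuccEquiv A n P)) ≤ d i.succ := by
  classical
  rw [MvPolynomial.degreeOf_le_iff]
  intro β hβ
  rw [MvPolynomial.mem_support_iff, coeff_subst s P (hP 0)] at hβ
  obtain ⟨l, -, hl⟩ := Finset.exists_ne_zero_of_sum_ne_zero hβ
  have h1 : MvPolynomial.coeff (β.cons l) P ≠ 0 := right_ne_zero_of_mul hl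
  have h2 := (MvPolynomial.degreeOf_le_iff.1 (hP i.succ)) (β.cons l)
    (MvPolynomial.mem_support_iff.2 h1)
  rwa [Finsupp.cons_succ] at h2

theorem FreeV.cons {n : ℕ} {d : Fin (n + 1) → ℕ} {L E : Submodule k A} {s : A} {f : Fin n → A}
    (h1L : (1 : A) ∈ L) (hsL : s ∈ L) (hfL : ∀ i, f i ∈ L) (h1E : (1 : A) ∈ E)
    (hGD : GD (d 0) L E s) (hns : s ∉ suppI L E ⊔ E) (h : FreeV (fun i => d i.succ) L (polyU s E (d 0 + 1)) f) :
    FreeV d L E (Fin.cons s f : Fin (n + 1) → A) := by
  classical
  have hEL : E ≤ E * L := fun e he => by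
    have := Submodule.mul_mem_mul he h1L
    rwa [mul_one] at this
  refine ⟨fun P hD hP h0 => ?_, fun P hD hP h0 => ?_⟩
  · have h1 := h.indep _ (fun i => degreeOf_substV s P hD i) (by
      intro β
      rw [coeff_subst s P (hD 0)]
      exact Submodule.sum_mem _ fun l hl =>
        pow_mul_mem_polyU s E (Finset.mem_range.1 hl) (hP _)) (by rw [eval_subst, h0])
    ext β
    rw [MvPolynomial.coeff_zero, ← Finsupp.cons_tail β]
    have h2 := coeff_subst s P (hD 0) β.tail
    rw [h1, MvPolynomial.coeff_zero] at h2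
    by_cases hβ : β 0 ≤ d 0
    · exact free_poly hsL h1L h1E hns hGD (d 0) (by omega)
        (fun l => MvPolynomial.coeff (β.tail.cons l) P) (fun l _ => hP _) h2.symm _ hβ
    · by_contra hne
      have h3 := (MvPolynomial.degreeOf_le_iff.1 (hD 0)) _ (MvPolynomial.mem_support_iff.2 hne)
      rw [Finsupp.cons_zero] at h3
      exact hβ h3
  · obtain ⟨Q, hQ, hPQ⟩ := h.free _ (fun i => degreeOf_substV s P hD i) (by
      intro β
      rw [coeff_subst s P (hD 0)]
      exact Submodule.sum_mem _ fun l hl =>
        pow_mul_mem_polyU_mul s E L (Finset.mem_range.1 hl) (hP _)) (by rw [eval_subst, h0])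
    have hlift := fun i => exists_lift s E (Q i) (hQ i)
    choose q hqE hqD hqs using hlift
    set T : Polynomial (MvPolynomial (Fin n) A) := MvPolynomial.finSuccEquiv A n P -
      ∑ i, Polynomial.C (MvPolynomial.X i - MvPolynomial.C (f i)) * q i with hT
    have hroot : T.eval (MvPolynomial.C s) = 0 := by
      rw [hT, Polynomial.eval_sub, Polynomial.eval_finsetSum]
      simp only [Polynomial.eval_mul, Polynomial.eval_C, hqs]
      rw [hPQ, sub_self]
    have hTD : T.natDegree ≤ d 0 := by
      refine (Polynomial.natDegree_sub_le _ _).trans (max_le ?_ ?_)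
      · rw [MvPolynomial.natDegree_finSuccEquiv]; exact hD 0
      · exact Polynomial.natDegree_sum_le_of_forall_le _ _ fun i _ =>
          (Polynomial.natDegree_C_mul_le _ _).trans (hqD i)
    have hTL : ∀ l β, (T.coeff l).coeff β ∈ E * L := by
      intro l β
      rw [hT, Polynomial.coeff_sub, Polynomial.finsetSum_coeff, MvPolynomial.coeff_sub,
        MvPolynomial.coeff_sum, MvPolynomial.finSuccEquiv_coeff_coeff]
      refine Submodule.sub_mem _ (hP _) (Submodule.sum_mem _ fun i _ => ?_)
      rw [Polynomial.coeff_C_mul, sub_mul, MvPolynomial.coeff_sub, MvPolynomial.coeff_X_mul',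
        MvPolynomial.coeff_C_mul]
      refine Submodule.sub_mem _ ?_ ?_
      · split_ifs
        · exact hEL (hqE _ _ _)
        · exact Submodule.zero_mem _
      · rw [mul_comm (f i)]
        exact Submodule.mul_mem_mul (hqE _ _ _) (hfL i)
    obtain ⟨q0, hq0⟩ := Polynomial.dvd_iff_isRoot.2 (show T.IsRoot (MvPolynomial.C s) from hroot)
    have hq0D : ∀ l, d 0 ≤ l → q0.coeff l = 0 := by
      intro l hl
      by_cases h0' : q0 = 0
      · rw [h0', Polynomial.coeff_zero]
      · apply Polynomial.coeff_eq_zero_of_natDegree_lt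
        have h1 : T.natDegree = 1 + q0.natDegree := by
          rw [hq0, Polynomial.natDegree_mul (Polynomial.X_sub_C_ne_zero _) h0',
            Polynomial.natDegree_X_sub_C]
        omega
    have hq0E : ∀ l β, (q0.coeff l).coeff β ∈ E := by
      intro l β
      obtain ⟨w, h1, h2, h3, h4⟩ := hGD.formal hsL (fun l => (T.coeff l).coeff β)
        (fun j _ => hTL j β) (by
          have h5 := congrArg (MvPolynomial.coeff β) hroot
          rw [Polynomial.eval_eq_sum_range' (n := d 0 + 1) (by omega), MvPolynomial.coeff_sum,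
            MvPolynomial.coeff_zero] at h5
          rw [← h5]
          refine Finset.sum_congr rfl fun l _ => ?_
          rw [← map_pow, mvcoeff_mul_C, mul_comm])
      have h5 : ∀ e l, d 0 ≤ l + e → (q0.coeff l).coeff β = w (l + 1) := by
        intro e
        induction e with
        | zero =>
          intro l hl
          rw [hq0D l hl, MvPolynomial.coeff_zero, h3 (l + 1) (by omega)]
        | succ e ih =>
          intro l hl
          rcases Nat.lt_or_ge l (d 0) with hlD | hlD
          · have h6 := ih (l + 1) (by omega)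
            have h7 := h4 (l + 1) (by omega)
            have h8 : T.coeff (l + 1) = q0.coeff l - MvPolynomial.C s * q0.coeff (l + 1) := by
              rw [hq0, Polynomial.coeff_X_sub_C_mul]
            rw [h8, MvPolynomial.coeff_sub, MvPolynomial.coeff_C_mul, h6] at h7
            linear_combination h7
          · rw [hq0D l hlD, MvPolynomial.coeff_zero, h3 (l + 1) (by omega)]
      rw [h5 (d 0) l (by omega)]
      exact h1 _
    have hsymm : ∀ r : Polynomial (MvPolynomial (Fin n) A), (∀ l β, (r.coeff l).coeff β ∈ E) →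
        CoefIn E ((MvPolynomial.finSuccEquiv A n).symm r) := by
      intro r hr β
      rw [← Finsupp.cons_tail β, ← MvPolynomial.finSuccEquiv_coeff_coeff,
        AlgEquiv.apply_symm_apply]
      exact hr _ _
    refine ⟨Fin.cons ((MvPolynomial.finSuccEquiv A n).symm q0)
      (fun i => (MvPolynomial.finSuccEquiv A n).symm (q i)), ?_, ?_⟩
    · intro i
      refine Fin.cases ?_ (fun i => ?_) i
      · rw [Fin.cons_zero]; exact hsymm _ hq0E
      · rw [Fin.cons_succ]; exact hsymm _ (hqE i)
    · apply (MvPolynomial.finSuccEquiv A n).injective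
      have hC : ∀ c : A, MvPolynomial.finSuccEquiv A n (MvPolynomial.C c) =
          Polynomial.C (MvPolynomial.C c) := by
        intro c
        simp [MvPolynomial.finSuccEquiv_apply]
      rw [Fin.sum_univ_succ, map_add, map_mul, map_sub, map_sum, MvPolynomial.finSuccEquiv_X_zero,
        Fin.cons_zero, Fin.cons_zero, hC, AlgEquiv.apply_symm_apply, ← hq0, hT]
      have h9 : ∀ i : Fin n, MvPolynomial.finSuccEquiv A n ((MvPolynomial.X i.succ -
          MvPolynomial.C ((Fin.cons s f : Fin (n + 1) → A) i.succ)) *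
          (Fin.cons ((MvPolynomial.finSuccEquiv A n).symm q0)
            (fun i => (MvPolynomial.finSuccEquiv A n).symm (q i)) :
            Fin (n + 1) → MvPolynomial (Fin (n + 1)) A) i.succ) =
          Polynomial.C (MvPolynomial.X i - MvPolynomial.C (f i)) * q i := by
        intro i
        rw [Fin.cons_succ, Fin.cons_succ, map_mul, map_sub, MvPolynomial.finSuccEquiv_X_succ, hC,
          AlgEquiv.apply_symm_apply, Polynomial.C_sub]
      rw [Finset.sum_congr rfl (fun i _ => h9 i), sub_add_cancel]

/-- a free tuple satisfies no relation which is linear in elements of `L` independent modulo a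
fixed finite dimensional space -/
theorem FreeV.lin {n r : ℕ} {d : Fin n → ℕ} {L E : Submodule k A} {f : Fin n → A} (H : FreeV d L E f)
    (h1L : (1 : A) ∈ L) (hfL : ∀ i, f i ∈ L) (y : Fin r → A) (hyL : ∀ j, y j ∈ L)
    (hy : ∀ c : Fin r → k, ∑ j, c j • y j ∈
      suppI L E ⊔ Submodule.span k (insert 1 (Set.range f)) → ∀ j, c j = 0)
    (P0 : MvPolynomial (Fin n) A) (P : Fin r → MvPolynomial (Fin n) A)
    (hP0D : ∀ i, P0.degreeOf i ≤ d i) (hPD : ∀ j i, (P j).degreeOf i ≤ d i) (hP0E : CoefIn E P0)
    (hPE : ∀ j, CoefIn E (P j))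
    (h0 : MvPolynomial.eval f P0 + ∑ j, y j * MvPolynomial.eval f (P j) = 0) :
    P0 = 0 ∧ ∀ j, P j = 0 := by
  classical
  have hEL : E ≤ E * L := fun e he => by
    have := Submodule.mul_mem_mul he h1L
    rwa [mul_one] at this
  obtain ⟨Q, hQ, hPQ⟩ := H.free (P0 + ∑ j, MvPolynomial.C (y j) * P j) (by
    intro i
    refine (MvPolynomial.degreeOf_add_le _ _ _).trans (max_le (hP0D i) ?_)
    refine (MvPolynomial.degreeOf_sum_le _ _ _).trans ?_
    rw [Finset.sup_le_iff]
    intro j _
    exact (MvPolynomial.degreeOf_C_mul_le _ _ _).trans (hPD j i)) (by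
    intro β
    rw [MvPolynomial.coeff_add, MvPolynomial.coeff_sum]
    refine Submodule.add_mem _ (hEL (hP0E β)) (Submodule.sum_mem _ fun j _ => ?_)
    rw [MvPolynomial.coeff_C_mul, mul_comm (y j)]
    exact Submodule.mul_mem_mul (hPE j β) (hyL j)) (by
    rw [map_add, map_sum, ← h0]
    congr 1
    refine Finset.sum_congr rfl fun j _ => ?_
    rw [map_mul, MvPolynomial.eval_C])
  have hP : ∀ j, P j = 0 := by
    intro j0
    ext β
    rw [MvPolynomial.coeff_zero]
    apply eq_zero_of_dual (k := k)
    intro φ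
    set g : A := MvPolynomial.coeff β (∑ i, MvPolynomial.X i * Q i) with hg
    have hgE : g ∈ E := by
      rw [hg, MvPolynomial.coeff_sum]
      refine Submodule.sum_mem _ fun i _ => ?_
      rw [MvPolynomial.coeff_X_mul']
      split_ifs
      · exact hQ _ _
      · exact E.zero_mem
    have h1 := congrArg (MvPolynomial.coeff β) hPQ
    rw [MvPolynomial.coeff_add, MvPolynomial.coeff_sum] at h1
    have h2 : MvPolynomial.coeff β (∑ i, (MvPolynomial.X i - MvPolynomial.C (f i)) * Q i) =
        g - ∑ i, f i * MvPolynomial.coeff β (Q i) := by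
      rw [hg]
      simp only [sub_mul, Finset.sum_sub_distrib, MvPolynomial.coeff_sub, MvPolynomial.coeff_sum,
        MvPolynomial.coeff_C_mul]
    rw [h2] at h1
    simp only [MvPolynomial.coeff_C_mul] at h1
    have h3 := mem_suppI (L := L) (Ω := E) (τ := Fin r ⊕ (Fin n ⊕ Unit))
      (Sum.elim (fun j => MvPolynomial.coeff β (P j)) (Sum.elim (fun i =>
        MvPolynomial.coeff β (Q i)) (fun _ => MvPolynomial.coeff β P0 - g)))
      (Sum.elim y (Sum.elim f (fun _ => 1))) (by
        rintro (j | (i | u))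
        · exact hPE j β
        · exact hQ i β
        · exact E.sub_mem (hP0E β) hgE) (by
        rintro (j | (i | u))
        · exact hyL j
        · exact hfL i
        · exact h1L) (by
        rw [Fintype.sum_sum_type, Fintype.sum_sum_type]
        simp only [Sum.elim_inl, Sum.elim_inr, Finset.univ_unique, Finset.sum_singleton, mul_one]
        have e1 : ∑ j, MvPolynomial.coeff β (P j) * y j = ∑ j, y j * MvPolynomial.coeff β (P j) :=
          Finset.sum_congr rfl fun j _ => mul_comm _ _
        have e2 : ∑ i, MvPolynomial.coeff β (Q i) * f i = ∑ i, f i * MvPolynomial.coeff β (Q i) :=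
          Finset.sum_congr rfl fun j _ => mul_comm _ _
        rw [e1, e2]
        linear_combination h1) φ
    rw [Fintype.sum_sum_type, Fintype.sum_sum_type] at h3
    simp only [Sum.elim_inl, Sum.elim_inr, Finset.univ_unique, Finset.sum_singleton] at h3
    refine hy (fun j => φ (MvPolynomial.coeff β (P j))) ?_ j0
    have h4 : ∑ i, φ (MvPolynomial.coeff β (Q i)) • f i + φ (MvPolynomial.coeff β P0 - g) •
        (1 : A) ∈ Submodule.span k (insert 1 (Set.range f)) :=
      Submodule.add_mem _ (Submodule.sum_mem _ fun i _ => Submodule.smul_mem _ _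
        (Submodule.subset_span (Set.mem_insert_of_mem _ ⟨i, rfl⟩)))
        (Submodule.smul_mem _ _ (Submodule.subset_span (Set.mem_insert _ _)))
    have h5 := Submodule.sub_mem _ (Submodule.mem_sup_left (T := Submodule.span k
      (insert 1 (Set.range f))) h3) (Submodule.mem_sup_right (S := suppI L E) h4)
    rwa [add_sub_cancel_right] at h5
  refine ⟨?_, hP⟩
  apply H.indep P0 hP0D hP0E
  rw [← h0, Finset.sum_eq_zero, add_zero]
  intro j _
  rw [hP j, map_zero, mul_zero]

end

section

open MvPolynomial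

theorem linear_splitV {k : Type*} [CommRing k] {σ τ : Type*} [Fintype τ] (d : σ → ℕ) (P : MvPolynomial (σ ⊕ τ) k)
    (hD : ∀ i, P.degreeOf (Sum.inl i) ≤ d i) (h1 : ∀ β ∈ P.support, ∑ j, β (Sum.inr j) ≤ 1) :
    ∃ (P0 : MvPolynomial σ k) (Q : τ → MvPolynomial σ k), (∀ i, P0.degreeOf i ≤ d i) ∧
      (∀ j i, (Q j).degreeOf i ≤ d i) ∧
      P = rename Sum.inl P0 + ∑ j, X (Sum.inr j) * rename Sum.inl (Q j) := by
  classical
  have hinj : Function.Injective (Sum.inl : σ → σ ⊕ τ) := Sum.inl_injective
  let c : (σ ⊕ τ →₀ ℕ) → (σ →₀ ℕ) := fun β => β.comapDomain Sum.inl hinj.injOn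
  have hc : ∀ β i, c β i = β (Sum.inl i) := fun β i => rfl
  let T0 : (σ ⊕ τ →₀ ℕ) → MvPolynomial σ k := fun β =>
    if ∀ j, β (Sum.inr j) = 0 then monomial (c β) (coeff β P) else 0
  let T : τ → (σ ⊕ τ →₀ ℕ) → MvPolynomial σ k := fun j β =>
    if β (Sum.inr j) = 1 then monomial (c β) (coeff β P) else 0
  have hdeg : ∀ (F : (σ ⊕ τ →₀ ℕ) → MvPolynomial σ k), (∀ β ∈ P.support, ∀ γ, coeff γ (F β) ≠ 0 →
      γ = c β) → ∀ i, (∑ β ∈ P.support, F β).degreeOf i ≤ d i := by
    intro F hF i
    rw [degreeOf_le_iff]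
    intro γ hγ
    rw [MvPolynomial.mem_support_iff, coeff_sum] at hγ
    obtain ⟨β, hβ, hne⟩ := Finset.exists_ne_zero_of_sum_ne_zero hγ
    rw [hF β hβ γ hne, hc]
    exact (degreeOf_le_iff.1 (hD i)) β hβ
  refine ⟨∑ β ∈ P.support, T0 β, fun j => ∑ β ∈ P.support, T j β, hdeg _ ?_,
    fun j => hdeg _ ?_, ?_⟩
  · intro β _ γ hγ
    simp only [T0] at hγ
    split_ifs at hγ with h
    · rw [coeff_monomial] at hγ
      by_contra hne
      rw [if_neg (fun h => hne h.symm)] at hγ
      exact hγ rfl
    · exact absurd (coeff_zero _) hγ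
  · intro β _ γ hγ
    simp only [T] at hγ
    split_ifs at hγ with h
    · rw [coeff_monomial] at hγ
      by_contra hne
      rw [if_neg (fun h => hne h.symm)] at hγ
      exact hγ rfl
    · exact absurd (coeff_zero _) hγ
  · simp only [map_sum, Finset.mul_sum]
    rw [Finset.sum_comm, ← Finset.sum_add_distrib]
    nth_rewrite 1 [P.as_sum]
    refine Finset.sum_congr rfl fun β hβ => ?_
    have h2 := h1 β hβ
    by_cases h3 : ∀ j, β (Sum.inr j) = 0
    · have e1 : β = Finsupp.mapDomain Sum.inl (c β) := by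
        ext i
        rcases i with i | j
        · rw [Finsupp.mapDomain_apply hinj, hc]
        · rw [Finsupp.mapDomain_of_notMem_range _ _ (by simp), h3 j]
      have e2 : ∀ j, T j β = 0 := fun j => by
        simp only [T]
        rw [if_neg (by rw [h3 j]; exact zero_ne_one)]
      simp only [T0, if_pos h3, e2, map_zero, mul_zero, Finset.sum_const_zero, add_zero,
        rename_monomial]
      rw [← e1]
    · push Not at h3
      obtain ⟨j, hj⟩ := h3
      have hj1 : β (Sum.inr j) = 1 := by
        have := Finset.single_le_sum (f := fun j => β (Sum.inr j)) (fun _ _ => Nat.zero_le _)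
          (Finset.mem_univ j)
        omega
      have hj0 : ∀ j', j' ≠ j → β (Sum.inr j') = 0 := by
        intro j' hne
        have := Finset.add_le_sum (f := fun j => β (Sum.inr j)) (fun _ _ => Nat.zero_le _)
          (Finset.mem_univ j) (Finset.mem_univ j') hne.symm
        omega
      have e1 : β = Finsupp.single (Sum.inr j) 1 + Finsupp.mapDomain Sum.inl (c β) := by
        ext i
        rcases i with i | j'
        · rw [Finsupp.add_apply, Finsupp.mapDomain_apply hinj, hc, Finsupp.single_apply,
            if_neg (by simp), zero_add]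
        · rw [Finsupp.add_apply, Finsupp.mapDomain_of_notMem_range _ _ (by simp), add_zero,
            Finsupp.single_apply]
          by_cases hjj : j' = j
          · rw [hjj, if_pos rfl, hj1]
          · rw [hj0 j' hjj, if_neg]
            intro h
            exact hjj (Sum.inr_injective h).symm
      have e2 : T0 β = 0 := by
        simp only [T0]
        rw [if_neg (fun h => hj (h j))]
      rw [e2, map_zero, zero_add, Finset.sum_eq_single j]
      · simp only [T, if_pos hj1, rename_monomial]
        rw [X, monomial_mul, one_mul, ← e1]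
      · intro j' _ hne
        simp only [T]
        rw [if_neg (by rw [hj0 j' hne]; exact zero_ne_one), map_zero, mul_zero]
      · intro h; exact absurd (Finset.mem_univ _) h

variable {k A : Type*} [Field k] [Field A] [Algebra k A]

theorem FreeV.indep_mod {n : ℕ} {d : Fin n → ℕ} {L E : Submodule k A} {f : Fin n → A}
    (H : FreeV (fun i => d i + 1) L E f) (h1 : (1 : A) ∈ E) (c : Fin n → k) (hc : ∑ i, c i • f i ∈ E) :
    ∀ i, c i = 0 := by
  classical
  intro i
  have h2 := H.indep (∑ i, MvPolynomial.C (algebraMap k A (c i)) * X i -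
      MvPolynomial.C (∑ i, c i • f i)) (by
    intro i
    refine (degreeOf_sub_le _ _ _).trans (max_le ?_ ?_)
    · refine (degreeOf_sum_le _ _ _).trans ?_
      rw [Finset.sup_le_iff]
      intro j _
      refine (degreeOf_C_mul_le _ _ _).trans ?_
      rw [degreeOf_X]
      split_ifs <;> omega
    · rw [degreeOf_C]; omega) (by
    intro β
    rw [coeff_sub, coeff_sum, coeff_C]
    refine Submodule.sub_mem _ (Submodule.sum_mem _ fun j _ => ?_) ?_
    · rw [coeff_C_mul, coeff_X, Algebra.algebraMap_eq_smul_one]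
      split_ifs
      · rw [mul_one]; exact E.smul_mem _ h1
      · rw [mul_zero]; exact Submodule.zero_mem _
    · split_ifs
      · exact hc
      · exact Submodule.zero_mem _) (by
    rw [map_sub, map_sum, eval_C, sub_eq_zero]
    refine Finset.sum_congr rfl fun j _ => ?_
    rw [map_mul, eval_C, eval_X, Algebra.smul_def])
  have h3 := congrArg (coeff (Finsupp.single i 1)) h2
  rw [coeff_zero, coeff_sub, coeff_sum, Finset.sum_eq_single i, coeff_C, if_neg, sub_zero,
    coeff_C_mul, coeff_X, if_pos rfl, mul_one] at h3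
  · exact (map_eq_zero _).1 h3
  · intro h
    have := congrArg (fun f => f i) h
    simp at this
  · intro j _ hj
    rw [coeff_C_mul, coeff_X, if_neg, mul_zero]
    intro h
    exact hj (Finsupp.single_left_injective one_ne_zero h)
  · intro h; exact absurd (Finset.mem_univ _) h

end

/-- Over a free tuple `y` every relation `P(y, l) = 0` with coefficients in `κ`, which is linear in
arbitrary elements `l` of `L`, follows from the linear relations between `1`, `y` and `l`. -/
theorem FreeV.lin_maps {κ A B : Type} [Field κ] [Field A] [Algebra κ A] [Field B] [Algebra κ B]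
    {n : ℕ} {d : Fin n → ℕ} {L : Submodule κ A} {y : Fin n → A}
    (H : FreeV (fun i => d i + 1) L (Submodule.span κ {(1 : A)}) y)
    (h1L : (1 : A) ∈ L) (hyL : ∀ i, y i ∈ L) {r : ℕ} (l : Fin r → A) (hl : ∀ j, l j ∈ L)
    (P : MvPolynomial (Fin n ⊕ Fin r) κ) (hD : ∀ i, P.degreeOf (Sum.inl i) ≤ d i)
    (h1 : ∀ β ∈ P.support, ∑ j, β (Sum.inr j) ≤ 1)
    (h0 : MvPolynomial.aeval (Sum.elim y l) P = 0) (φ : A →ₗ[κ] B) (hφ : φ 1 = 1) :
    MvPolynomial.aeval (fun i => φ (Sum.elim y l i)) P = 0 := by
  classical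
  obtain ⟨P0, Q, hP0, hQ, hPQ⟩ := linear_splitV d P hD h1
  set S := Submodule.span κ (insert (1 : A) (Set.range y)) with hS
  have hSL : S ≤ L := by
    rw [hS, Submodule.span_le]
    rintro x (rfl | ⟨i, rfl⟩)
    · exact h1L
    · exact hyL i
  have hrep : ∀ x ∈ S, ∃ (a : κ) (b : Fin n → κ), x = a • (1 : A) + ∑ i, b i • y i := by
    intro x hx
    rw [hS, Submodule.mem_span_insert] at hx
    obtain ⟨a, z, hz, rfl⟩ := hx
    obtain ⟨b, rfl⟩ := (Submodule.mem_span_range_iff_exists_fun κ).1 hz
    exact ⟨a, b, rfl⟩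
  obtain ⟨R, hR⟩ := Submodule.exists_isCompl S
  have hdec : ∀ j, ∃ s ∈ S, ∃ x ∈ R, s + x = l j := by
    intro j
    have : l j ∈ S ⊔ R := by rw [hR.sup_eq_top]; exact Submodule.mem_top
    exact Submodule.mem_sup.1 this
  choose s hs x hx hsx using hdec
  set R' := Submodule.span κ (Set.range x) with hR'
  have hR'R : R' ≤ R := by
    rw [hR', Submodule.span_le]
    rintro z ⟨j, rfl⟩
    exact hx j
  have hR'L : R' ≤ L := by
    rw [hR', Submodule.span_le]
    rintro z ⟨j, rfl⟩
    have : x j = l j - s j := by rw [← hsx j]; ring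
    rw [this]
    exact L.sub_mem (hl j) (hSL (hs j))
  have hfin : Module.Finite κ R' := Module.Finite.span_of_finite κ (Set.finite_range x)
  set e := finrank κ R' with he
  let bas : Basis (Fin e) κ R' := finBasis κ R'
  set z : Fin e → A := fun t => (bas t : A) with hz
  have hzL : ∀ t, z t ∈ L := fun t => hR'L (bas t).2
  have hlind : ∀ c : Fin e → κ, ∑ t, c t • z t ∈ S → ∀ t, c t = 0 := by
    intro c hc
    have h1 : ∑ t, c t • z t ∈ R := R.sum_mem fun t _ => R.smul_mem _ (hR'R (bas t).2)
    have h2 : ∑ t, c t • z t = 0 := by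
      have := hR.disjoint.le_bot ⟨hc, h1⟩
      simpa using this
    have h3 : ∑ t, c t • bas t = 0 := by
      apply Subtype.ext
      rw [Submodule.coe_sum, ZeroMemClass.coe_zero, ← h2]
      exact Finset.sum_congr rfl fun t _ => rfl
    exact Fintype.linearIndependent_iff.1 bas.linearIndependent c h3
  set c : Fin r → Fin e → κ := fun j t => bas.repr ⟨x j, Submodule.subset_span ⟨j, rfl⟩⟩ t with hc
  have hxz : ∀ j, x j = ∑ t, c j t • z t := by
    intro j
    have h1 := bas.sum_repr ⟨x j, Submodule.subset_span ⟨j, rfl⟩⟩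
    have h2 := congrArg (Subtype.val) h1
    rw [Submodule.coe_sum] at h2
    rw [hc, hz]
    exact h2.symm
  have hsrep : ∀ j, ∃ (a : κ) (b : Fin n → κ), s j = a • (1 : A) + ∑ t, b t • y t :=
    fun j => hrep _ (hs j)
  choose a b hab using hsrep
  set P1 : MvPolynomial (Fin n) κ := P0 + ∑ j, aff (a j) (b j) * Q j with hP1
  set Q1 : Fin e → MvPolynomial (Fin n) κ := fun t => ∑ j, MvPolynomial.C (c j t) * Q j with hQ1
  have key : ∀ (B' : Type) [Field B'] [Algebra κ B'] (ψ : A →ₗ[κ] B'), ψ 1 = 1 →
      MvPolynomial.aeval (fun i => ψ (Sum.elim y l i)) P =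
        MvPolynomial.aeval (fun i => ψ (y i)) P1 +
        ∑ t, ψ (z t) * MvPolynomial.aeval (fun i => ψ (y i)) (Q1 t) := by
    intro B' _ _ ψ hψ
    set E := MvPolynomial.aeval (R := κ) (fun i => ψ (y i)) with hE
    have e0 : ∀ T : MvPolynomial (Fin n) κ, MvPolynomial.aeval (fun i => ψ (Sum.elim y l i))
        (MvPolynomial.rename Sum.inl T) = E T := by
      intro T
      rw [MvPolynomial.aeval_rename, hE]
      rfl
    have e1 : ∀ j, ψ (l j) = E (aff (a j) (b j)) + ∑ t, c j t • ψ (z t) := by
      intro j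
      rw [← hsx j, map_add, hxz j, map_sum, hE, aeval_aff, hab j, map_add, map_smul, hψ, map_sum]
      congr 1
      · congr 1
        exact Finset.sum_congr rfl fun t _ => by rw [map_smul]
      · exact Finset.sum_congr rfl fun t _ => by rw [map_smul]
    rw [hPQ, map_add, map_sum, e0, hP1, map_add, map_sum, add_assoc]
    congr 1
    have e3 : ∑ t, ψ (z t) * E (Q1 t) = ∑ j, (∑ t, c j t • ψ (z t)) * E (Q j) := by
      rw [hQ1]
      simp only [map_sum, map_mul, Finset.mul_sum, Finset.sum_mul]
      rw [Finset.sum_comm]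
      refine Finset.sum_congr rfl fun j _ => Finset.sum_congr rfl fun t _ => ?_
      have e4 : E (MvPolynomial.C (c j t)) = algebraMap κ B' (c j t) := MvPolynomial.aeval_C _ _
      rw [e4, Algebra.smul_def]
      ring
    rw [e3, ← Finset.sum_add_distrib]
    refine Finset.sum_congr rfl fun j _ => ?_
    rw [map_mul, map_mul, MvPolynomial.aeval_X, e0, Sum.elim_inr, e1, add_mul]
  have hcoef : ∀ T : MvPolynomial (Fin n) κ,
      CoefIn (Submodule.span κ {(1 : A)}) (MvPolynomial.map (algebraMap κ A) T) := by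
    intro T β
    rw [MvPolynomial.coeff_map, Algebra.algebraMap_eq_smul_one]
    exact Submodule.smul_mem _ _ (Submodule.mem_span_singleton_self _)
  have hev : ∀ T : MvPolynomial (Fin n) κ, MvPolynomial.eval y (MvPolynomial.map (algebraMap κ A) T) =
      MvPolynomial.aeval (fun i => (LinearMap.id : A →ₗ[κ] A) (y i)) T := by
    intro T
    rw [MvPolynomial.eval_map, MvPolynomial.aeval_def]
    rfl
  have hid := key A LinearMap.id rfl
  have hid0 : MvPolynomial.aeval (fun i => (LinearMap.id : A →ₗ[κ] A) (Sum.elim y l i)) P = 0 := h0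
  rw [hid0] at hid
  have hzz := FreeV.lin H h1L hyL z hzL (by
    intro c' hc'
    apply hlind c'
    rw [suppI_one, bot_sup_eq] at hc'
    exact hc') (MvPolynomial.map (algebraMap κ A) P1)
    (fun t => MvPolynomial.map (algebraMap κ A) (Q1 t))
    (fun i => (degreeOf_map_le' _ _ _).trans (by
      rw [hP1]
      refine (MvPolynomial.degreeOf_add_le _ _ _).trans (max_le ((hP0 i).trans (Nat.le_succ _)) ?_)
      refine (MvPolynomial.degreeOf_sum_le _ _ _).trans ?_
      rw [Finset.sup_le_iff]
      intro j _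
      refine (MvPolynomial.degreeOf_mul_le _ _ _).trans ?_
      have h2 := degreeOf_aff (a j) (b j) i
      have h3 := hQ j i
      omega))
    (fun t i => (degreeOf_map_le' _ _ _).trans (by
      rw [hQ1]
      refine (MvPolynomial.degreeOf_sum_le _ _ _).trans ?_
      rw [Finset.sup_le_iff]
      intro j _
      exact (MvPolynomial.degreeOf_C_mul_le _ _ _).trans ((hQ j i).trans (Nat.le_succ _))))
    (hcoef _) (fun t => hcoef _) (by
      rw [hev]
      rw [hid]
      congr 1
      refine Finset.sum_congr rfl fun t _ => ?_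
      rw [hev]
      rfl)
  have hinj : Function.Injective (MvPolynomial.map (σ := Fin n) (algebraMap κ A)) :=
    MvPolynomial.map_injective _ (algebraMap κ A).injective
  have hP10 : P1 = 0 := hinj (by rw [hzz.1, map_zero])
  have hQ10 : ∀ t, Q1 t = 0 := fun t => hinj (by rw [hzz.2 t, map_zero])
  rw [key B φ hφ, hP10, map_zero, zero_add]
  refine Finset.sum_eq_zero fun t _ => ?_
  rw [hQ10 t, map_zero, mul_zero]

end Pool.Agent.H48.IG
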