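import Mathlib
import Pool.Graph.R_pool_sql_team_seeded_35f281b4.K7.H62.PA.LinMap
import Pool.Graph.R_seed8.R350.GF
import Pool.Agent.H48.IG.Chain
import Pool.Agent.H48.IG.FV

/-!
# Infinite free sequences of logarithms
-/

set_option autoImplicit false

namespace Pool.Agent.H48.IG

open Module Filter Finset
open Pool.Agent.R350 (FreeT GD polyU suppI suppI_bound polyU_bound pow_mul_mem_polyU Setup HypV
  one_varD setup_complex)
open Pool.Agent.H301R2.SSE (Lt)

section

variable {κ C : Type} [Field κ] [Field C] [Algebra κ C]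

/-- the polynomials of degree at most `d i + 1` in `z i` for every `i < j`, with coefficients in
`E₀` -/
def Esp {κ C : Type} [Field κ] [Field C] [Algebra κ C] (E₀ : Submodule κ C) (d : ℕ → ℕ)
    (z : ℕ → C) : ℕ → Submodule κ C
  | 0 => E₀
  | j + 1 => polyU (z j) (Esp E₀ d z j) (d j + 2)

theorem Esp_congr (E₀ : Submodule κ C) (d : ℕ → ℕ) {z z' : ℕ → C} (j : ℕ)
    (h : ∀ i < j, z i = z' i) : Esp E₀ d z j = Esp E₀ d z' j := by
  induction j with
  | zero => rfl
  | succ j ih =>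
    change polyU (z j) (Esp E₀ d z j) (d j + 2) = polyU (z' j) (Esp E₀ d z' j) (d j + 2)
    rw [ih fun i hi => h i (by omega), h j (by omega)]

theorem Esp_one (E₀ : Submodule κ C) (h0 : (1 : C) ∈ E₀) (d : ℕ → ℕ) (z : ℕ → C) (j : ℕ) :
    (1 : C) ∈ Esp E₀ d z j := by
  induction j with
  | zero => exact h0
  | succ j ih =>
    have := pow_mul_mem_polyU (z j) (Esp E₀ d z j) (l := 0) (n := d j + 2) (by omega) ih
    rwa [pow_zero, one_mul] at this

theorem Esp_bound (E₀ : Submodule κ C) (hE : Module.Finite κ E₀) {e : ℕ}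
    (he : finrank κ E₀ ≤ e) (d : ℕ → ℕ) (z : ℕ → C) (j : ℕ) :
    FiniteDimensional κ (Esp E₀ d z j) ∧
      finrank κ (Esp E₀ d z j) ≤ e * ∏ i ∈ range j, (d i + 2) := by
  induction j with
  | zero =>
    refine ⟨hE, ?_⟩
    rw [range_zero, prod_empty, mul_one]
    exact he
  | succ j ih =>
    have := ih.1
    obtain ⟨h1, h2⟩ := polyU_bound (z j) (Esp E₀ d z j) (d j + 2)
    refine ⟨h1, h2.trans ?_⟩
    rw [prod_range_succ, ← mul_assoc, mul_comm (e * _)]
    exact Nat.mul_le_mul_left _ ih.2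

/-- one more member -/
def Next (D : ℕ) (L : Submodule κ C) (E : Submodule κ C) (s : C) : Prop :=
  GD (D + 1) L E s ∧ s ∉ (suppI L E ⊔ E : Submodule κ C)

theorem freeV_of_next (E₀ : Submodule κ C) (h0 : (1 : C) ∈ E₀) (d : ℕ → ℕ) (L : Submodule κ C)
    (h1L : (1 : C) ∈ L) (z : ℕ → C)
    (hz : ∀ j, z j ∈ L) (h : ∀ j, Next (d j) L (Esp E₀ d z j) (z j)) (n : ℕ) : ∀ k : ℕ,
    FreeV (fun i : Fin n => d (k + i) + 1) L (Esp E₀ d z k) (fun i : Fin n => z (k + i)) := by
  induction n with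
  | zero => exact fun k => FreeV.nil _ _ _ _
  | succ n ih =>
    intro k
    have hd : (fun i : Fin n => d (k + 1 + i) + 1) =
        fun i : Fin n => (fun i : Fin (n + 1) => d (k + i) + 1) i.succ := by
      funext i
      simp only [Fin.val_succ]
      congr 2
      omega
    have h0' : d (k + (0 : Fin (n + 1))) = d k := by simp
    have ih1 := ih (k + 1)
    rw [hd] at ih1
    have h1 := FreeV.cons (d := fun i : Fin (n + 1) => d (k + i) + 1) (s := z k)
      (f := fun i : Fin n => z (k + 1 + i)) h1L (hz k) (fun i : Fin n => hz (k + 1 + i))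
      (Esp_one E₀ h0 d z k) (by rw [h0']; exact (h k).1) (h k).2 (by rw [h0']; exact ih1)
    have e : (fun i : Fin (n + 1) => z (k + i)) =
        (Fin.cons (z k) (fun i : Fin n => z (k + 1 + i)) : Fin (n + 1) → C) := by
      funext i
      refine Fin.cases ?_ (fun i => ?_) i
      · rw [Fin.cons_zero]
        simp
      · rw [Fin.cons_succ]
        congr 1
        rw [Fin.val_succ]
        omega
    rw [e]
    exact h1

end

/-- the thresholds -/
theorem ev_many (ε : ℝ) (hε : 0 < ε) (n : ℕ) (c : Fin n → ℕ) (M : ℕ) :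
    ∀ᶠ x : ℕ in atTop, 16 ≤ x ∧ ∑ i, Pool.Agent.TH681.QC.er (c i) x * x + M <
      x / Real.log x ^ (1 - ε) := by
  have h1 : ∀ c : ℕ, ∀ᶠ u : ℝ in atTop,
      (c : ℝ) * Real.log u ^ c ≤ 1 / ((n : ℝ) + 1) * u ^ ε := by
    intro c
    have h := isLittleO_log_rpow_rpow_atTop (c : ℝ) hε
    have h2 := h.def (c := 1 / (((c : ℝ) + 1) * ((n : ℝ) + 1))) (by positivity)
    filter_upwards [h2, eventually_gt_atTop 1] with u hu h1u
    have h3 : 0 < Real.log u := Real.log_pos h1u
    rw [Real.rpow_natCast, Real.norm_of_nonneg (by positivity),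
      Real.norm_of_nonneg (by positivity)] at hu
    have h4 : 0 < u ^ ε := by positivity
    calc (c : ℝ) * Real.log u ^ c ≤ c * (1 / (((c : ℝ) + 1) * ((n : ℝ) + 1)) * u ^ ε) := by gcongr
      _ = (c / ((c : ℝ) + 1)) * (1 / ((n : ℝ) + 1) * u ^ ε) := by field_simp
      _ ≤ 1 * (1 / ((n : ℝ) + 1) * u ^ ε) := by
        apply mul_le_mul_of_nonneg_right _ (by positivity)
        rw [div_le_one (by positivity)]
        linarith
      _ = _ := one_mul _
  have hlog := Real.tendsto_log_atTop.comp (tendsto_natCast_atTop_atTop (R := ℝ))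
  have h2 : ∀ᶠ x : ℕ in atTop, ∀ i : Fin n,
      ((c i : ℕ) : ℝ) * Real.log (Real.log x) ^ (c i) ≤ 1 / ((n : ℝ) + 1) * Real.log x ^ ε :=
    eventually_all.2 fun i => hlog.eventually (h1 (c i))
  have h3 : ∀ᶠ x : ℕ in atTop, (M : ℝ) * ((n : ℝ) + 1) * Real.log x < x := by
    have h := Real.isLittleO_log_id_atTop.def (c := 1 / (((M : ℝ) + 1) * ((n : ℝ) + 1)))
      (by positivity)
    have h' := (tendsto_natCast_atTop_atTop (R := ℝ)).eventually h
    filter_upwards [h', eventually_ge_atTop 16] with x hx h16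
    have hx1 : (16 : ℝ) ≤ x := by exact_mod_cast h16
    have hl : 0 < Real.log x := Real.log_pos (by linarith)
    rw [Real.norm_of_nonneg hl.le, id, Real.norm_of_nonneg (by linarith)] at hx
    have h5 : (((M : ℝ) + 1) * ((n : ℝ) + 1)) * Real.log x ≤ x := by
      rw [one_div, ← div_eq_inv_mul, le_div_iff₀ (by positivity)] at hx
      linarith
    have h6 : 0 < ((n : ℝ) + 1) * Real.log x := by positivity
    nlinarith
  filter_upwards [h2, h3, eventually_ge_atTop 16,
    hlog.eventually (eventually_ge_atTop (1 : ℝ))] with x hx hM h16 hl1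
  refine ⟨h16, ?_⟩
  simp only [Function.comp_apply] at hl1
  have hx1 : (16 : ℝ) ≤ x := by exact_mod_cast h16
  have hl : 0 < Real.log x := by linarith
  have hle : 1 ≤ Real.log x ^ ε := Real.one_le_rpow hl1 hε.le
  have e : (x : ℝ) / Real.log x ^ (1 - ε) = Real.log x ^ ε / Real.log x * x := by
    rw [Real.rpow_sub hl, Real.rpow_one]
    field_simp
  rw [e]
  have h4 : ∑ i, Pool.Agent.TH681.QC.er (c i) x * x ≤
      n * (1 / ((n : ℝ) + 1) * (Real.log x ^ ε / Real.log x * x)) := by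
    calc ∑ i, Pool.Agent.TH681.QC.er (c i) x * x ≤
        ∑ _i : Fin n, (1 / ((n : ℝ) + 1) * (Real.log x ^ ε / Real.log x * x)) := by
          refine Finset.sum_le_sum fun i _ => ?_
          unfold Pool.Agent.TH681.QC.er
          have h5 := hx i
          calc ((c i : ℕ) : ℝ) * Real.log (Real.log x) ^ (c i) / Real.log x * x ≤
              (1 / ((n : ℝ) + 1) * Real.log x ^ ε) / Real.log x * x := by gcongr
            _ = _ := by ring
      _ = _ := by rw [Finset.sum_const, Finset.card_univ, Fintype.card_fin, nsmul_eq_mul]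
  have h5 : (M : ℝ) < 1 / ((n : ℝ) + 1) * (Real.log x ^ ε / Real.log x * x) := by
    have h6 : (M : ℝ) < 1 / ((n : ℝ) + 1) * (1 / Real.log x * x) := by
      rw [one_div, one_div, ← div_eq_inv_mul, ← div_eq_inv_mul, div_div,
        lt_div_iff₀ (by positivity)]
      linarith
    refine h6.trans_le ?_
    gcongr
  calc ∑ i, Pool.Agent.TH681.QC.er (c i) x * x + M <
      n * (1 / ((n : ℝ) + 1) * (Real.log x ^ ε / Real.log x * x)) +
        1 / ((n : ℝ) + 1) * (Real.log x ^ ε / Real.log x * x) := by linarith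
    _ = Real.log x ^ ε / Real.log x * x := by
      field_simp

theorem ev_many2 (ε : ℝ) (hε : 0 < ε) (n : ℕ) (c : Fin n → ℕ) (M : ℕ) :
    ∀ᶠ x : ℕ in atTop, 16 ≤ x ∧ ∑ i, 2 * (Pool.Agent.TH681.QC.er (c i) x * x) + M <
      x / Real.log x ^ (1 - ε) := by
  filter_upwards [ev_many ε hε (n + n) (Fin.append c c) M] with x hx
  refine ⟨hx.1, ?_⟩
  have h := hx.2
  rw [Fin.sum_univ_add] at h
  simp only [Fin.append_left, Fin.append_right] at h
  rw [← Finset.mul_sum, two_mul]
  exact h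

/-- `1` and logarithms, and a further space -/
theorem LG_setup (G : Submodule (algebraicClosure ℚ ℂ) ℂ)
    [Module.Finite (algebraicClosure ℚ ℂ) G] {g : ℕ}
    (hg : finrank (algebraicClosure ℚ ℂ) G ≤ g) :
    Setup (0 + g) (fun n : ℕ => (Real.log n : ℂ)) (Lt ⊔ G) :=
  setup_complex.sup _ hg

/-- the extension by zero -/
def ext {α : Type} [Zero α] {s : ℕ} (p : Fin s → α) (k : ℕ) : α :=
  if h : k < s then p ⟨k, h⟩ else 0

/-- the condition for the next integer; the space of the coefficients is `K` -/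
def Cond1 (d : ℕ → ℕ) (G K : Submodule (algebraicClosure ℚ ℂ) ℂ) (s D : ℕ) (p : Fin s → ℕ)
    (a : ℕ) : Prop :=
  Next (d s) (Lt ⊔ G) (Esp K (fun j => d (D + j))
    (fun j => (Real.log (ext p (D + j) : ℕ) : ℂ)) (s - D)) (Real.log a : ℂ)

/-- the conditions for the next integer -/
def Cond (d : ℕ → ℕ) (G : ℕ → Submodule (algebraicClosure ℚ ℂ) ℂ) (s : ℕ) (p : Fin s → ℕ)
    (a : ℕ) : Prop :=
  ∀ D ≤ s, Cond1 d (G D) (Submodule.span (algebraicClosure ℚ ℂ) {(1 : ℂ)}) s D p a ∧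
    Cond1 d (G D) (Submodule.span (algebraicClosure ℚ ℂ) {(1 : ℂ)} ⊔ G D) s D p a

theorem exists_next (ε : ℝ) (hε : 0 < ε) (d g : ℕ → ℕ) (s M : ℕ) : ∃ T : ℕ, ∀ x : ℕ, T ≤ x →
    ∀ G : ℕ → Submodule (algebraicClosure ℚ ℂ) ℂ,
    (∀ D, Module.Finite (algebraicClosure ℚ ℂ) (G D)) →
    (∀ D ≤ s, finrank (algebraicClosure ℚ ℂ) (G D) ≤ g D) → ∀ (p : Fin s → ℕ) (A : Finset ℕ),
    A ⊆ Finset.Icc 1 x →
    (x : ℝ) / Real.log x ^ (1 - ε) ≤ A.card → ∃ a ∈ A, M < a ∧ Cond d G s p a := by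
  classical
  set R : ℕ → ℕ := fun D => (1 + g D) * ∏ i ∈ range (s - D), (d (D + i) + 2) with hR
  choose c hc using fun i : Fin (s + 1) => one_varD (d s + 1)
    (R i * (R i + (0 + g i)) * R i + R i) (0 + g i)
  obtain ⟨T, hT⟩ := eventually_atTop.1 (ev_many2 ε hε (s + 1) c M)
  refine ⟨T, fun x hx G hGf hG p A hA hcard => ?_⟩
  obtain ⟨h16, hlt⟩ := hT x hx
  by_contra hno
  push Not at hno
  set K1 : Submodule (algebraicClosure ℚ ℂ) ℂ := Submodule.span (algebraicClosure ℚ ℂ) {(1 : ℂ)}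
    with hK1
  have hK1f : Module.Finite (algebraicClosure ℚ ℂ) K1 :=
    FiniteDimensional.span_of_finite _ (Set.finite_singleton _)
  have hK1r : finrank (algebraicClosure ℚ ℂ) K1 ≤ 1 :=
    Pool.Agent.R350.finrank_span_one (algebraicClosure ℚ ℂ) ℂ
  have h1K1 : (1 : ℂ) ∈ K1 := Submodule.mem_span_singleton_self _
  set Bad : Fin (s + 1) → Submodule (algebraicClosure ℚ ℂ) ℂ → Finset ℕ := fun i K =>
    (Finset.Ioc 0 x).filter fun a => ¬ Cond1 d (G i) K s i p a with hBad
  have hsub : A ⊆ Finset.Icc 1 M ∪ Finset.univ.biUnion fun i : Fin (s + 1) =>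
      (Bad i K1 ∪ Bad i (K1 ⊔ G i)) := by
    intro a ha
    rw [Finset.mem_union]
    have hax := Finset.mem_Icc.1 (hA ha)
    by_cases hM : M < a
    · right
      have h1 := hno a ha hM
      unfold Cond at h1
      push Not at h1
      obtain ⟨D, hD, h2⟩ := h1
      rw [Finset.mem_biUnion]
      refine ⟨⟨D, by omega⟩, Finset.mem_univ _, ?_⟩
      rw [Finset.mem_union, hBad, Finset.mem_filter, Finset.mem_filter]
      have h3 : a ∈ Finset.Ioc 0 x := Finset.mem_Ioc.2 ⟨by omega, hax.2⟩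
      by_cases h4 : Cond1 d (G D) K1 s D p a
      · exact Or.inr ⟨h3, h2 h4⟩
      · exact Or.inl ⟨h3, h4⟩
    · exact Or.inl (Finset.mem_Icc.2 ⟨hax.1, by omega⟩)
  have hb : ∀ (i : Fin (s + 1)) (K : Submodule (algebraicClosure ℚ ℂ) ℂ),
      Module.Finite (algebraicClosure ℚ ℂ) K → finrank (algebraicClosure ℚ ℂ) K ≤ 1 + g i →
      (1 : ℂ) ∈ K → ((Bad i K).card : ℝ) ≤ Pool.Agent.TH681.QC.er (c i) x * x := by
    intro i K hKf hKr h1K
    have hGfi := hGf i
    have hGi := hG i (by omega)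
    set E := Esp K (fun j => d ((i : ℕ) + j))
      (fun j => (Real.log (ext p ((i : ℕ) + j) : ℕ) : ℂ)) (s - i) with hE
    obtain ⟨hf, hr⟩ := Esp_bound K hKf hKr (fun j => d ((i : ℕ) + j))
      (fun j => (Real.log (ext p ((i : ℕ) + j) : ℕ) : ℂ)) (s - i)
    have hr' : finrank (algebraicClosure ℚ ℂ) E ≤ R i := hr
    obtain ⟨hg, hgr⟩ := suppI_bound (LG_setup (G i) hGi).hyp E
    have hF : FiniteDimensional (algebraicClosure ℚ ℂ)
        (suppI (Lt ⊔ G i) E ⊔ E : Submodule (algebraicClosure ℚ ℂ) ℂ) := inferInstance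
    have hFr : finrank (algebraicClosure ℚ ℂ)
        (suppI (Lt ⊔ G i) E ⊔ E : Submodule (algebraicClosure ℚ ℂ) ℂ) ≤
        (R i * (R i + (0 + g i)) * R i + R i) := by
      refine (Submodule.finrank_add_le_finrank_add_finrank _ _).trans ?_
      exact Nat.add_le_add (hgr.trans (by gcongr)) hr'
    refine hc i x h16 (algebraicClosure ℚ ℂ) ℂ (fun n : ℕ => (Real.log n : ℂ)) (Lt ⊔ G i)
      (LG_setup (G i) hGi) E (suppI (Lt ⊔ G i) E ⊔ E) hf hF (Esp_one _ h1K _ _ _)
      (hr'.trans (Nat.le_add_left _ _)) hFr (Bad i K) (Finset.filter_subset _ _)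
      (fun a ha => ?_)
    have h2 := (Finset.mem_filter.1 ha).2
    by_cases h3 : GD (d s + 1) (Lt ⊔ G i) E (Real.log a : ℂ)
    · left
      by_contra h4
      exact h2 ⟨h3, h4⟩
    · exact Or.inr h3
  have hb2 : ∀ i : Fin (s + 1), ((Bad i K1 ∪ Bad i (K1 ⊔ G i)).card : ℝ) ≤
      2 * (Pool.Agent.TH681.QC.er (c i) x * x) := by
    intro i
    have hGfi := hGf i
    have h1 := hb i K1 hK1f (hK1r.trans (by omega)) h1K1
    have h2 := hb i (K1 ⊔ G i) inferInstance
      ((Submodule.finrank_add_le_finrank_add_finrank _ _).trans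
        (Nat.add_le_add hK1r (hG i (by omega)))) (Submodule.mem_sup_left h1K1)
    calc ((Bad i K1 ∪ Bad i (K1 ⊔ G i)).card : ℝ) ≤
        ((Bad i K1).card + (Bad i (K1 ⊔ G i)).card : ℕ) := by
          exact_mod_cast Finset.card_union_le _ _
      _ ≤ _ := by
        push_cast
        linarith
  have h1 : (A.card : ℝ) ≤ M + ∑ i, 2 * (Pool.Agent.TH681.QC.er (c i) x * x) := by
    calc (A.card : ℝ) ≤ ((Finset.Icc 1 M ∪ Finset.univ.biUnion fun i : Fin (s + 1) =>
          (Bad i K1 ∪ Bad i (K1 ⊔ G i))).card : ℝ) := by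
          exact_mod_cast Finset.card_le_card hsub
      _ ≤ ((Finset.Icc 1 M).card + (Finset.univ.biUnion fun i : Fin (s + 1) =>
          (Bad i K1 ∪ Bad i (K1 ⊔ G i))).card : ℕ) := by
          exact_mod_cast Finset.card_union_le _ _
      _ ≤ M + ∑ i, ((Bad i K1 ∪ Bad i (K1 ⊔ G i)).card : ℝ) := by
          push_cast
          rw [Nat.card_Icc, Nat.add_sub_cancel]
          gcongr
          exact_mod_cast Finset.card_biUnion_le
      _ ≤ _ := by gcongr with i; exact hb2 i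
  linarith

/-- the sequence is free from every index on -/
theorem freeV_of_cond (d : ℕ → ℕ) (b : ℕ → ℕ) (hpos : ∀ s, 0 < b s) (D : ℕ)
    (G K : Submodule (algebraicClosure ℚ ℂ) ℂ) (h1K : (1 : ℂ) ∈ K)
    (hb : ∀ s, D ≤ s → Cond1 d G K s D (fun i : Fin s => b i) (b s)) (N : ℕ) :
    FreeV (fun i : Fin N => d (D + i) + 1) (Lt ⊔ G) K
      (fun i : Fin N => (Real.log (b (D + i) : ℕ) : ℂ)) := by
  have h := freeV_of_next K h1K (fun j => d (D + j)) (Lt ⊔ G)
    (Submodule.mem_sup_left setup_complex.one) (fun j => (Real.log (b (D + j) : ℕ) : ℂ))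
    (fun j => Submodule.mem_sup_left (setup_complex.mem _ (hpos _))) (by
      intro j
      have h1 := hb (D + j) (by omega)
      unfold Cond1 at h1
      rw [Nat.add_sub_cancel_left] at h1
      rw [Esp_congr _ _ (z' := fun j' =>
        (Real.log (ext (fun i : Fin (D + j) => b i) (D + j') : ℕ) : ℂ))]
      · exact h1
      · intro i hi
        unfold ext
        rw [dif_pos (by omega)]) N 0
  simp only [zero_add] at h
  exact h

end Pool.Agent.H48.IG
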