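import Mathlib
import Pool.Graph.R_pool_sql_team_seeded_1acbe0a2.Y456.RL.Roh
import Pool.Agent.H48.IG.Chain

/-!
# Products of gamma values: one more argument

The proof of `one_step` is that of `Pool.Graph.R_pool_sql_team_seeded_1acbe0a2` (`RationalLines`,
part 1), with an arbitrary constant and for a part of the factors.
-/

set_option autoImplicit false

open NumberField

namespace Pool.Agent.H48.IG

open Pool.Agent

/-- `α` is a root of a nonzero integer polynomial of degree at most `δ` with coefficients of absolute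
value at most `H` -/
def AlgLe (δ : ℕ) (H : ℝ) (α : ℂ) : Prop :=
  ∃ q : Polynomial ℤ, q ≠ 0 ∧ q.natDegree ≤ δ ∧ (∀ k, |((q.coeff k : ℤ) : ℝ)| ≤ H) ∧
    Polynomial.aeval α q = 0

/-- the identity of Rohrlich's conjecture is not an identity for the factors with `i ∈ J` -/
def Fails {r : ℕ} (c : Fin r → ℤ) (b : Fin r → ℚ) (J : Finset (Fin r)) : Prop :=
  ∃ x : ℚ, (∀ i, ∀ n : ℤ, (c i : ℚ) * x + b i ≠ n) ∧
    ∑ i ∈ J, (Int.fract ((c i : ℚ) * x + b i) - 1 / 2) ≠ 0

theorem indOrd_of_fails {r : ℕ} (c : Fin r → ℤ) (hc : ∀ i, c i ≠ 0) (b : Fin r → ℚ)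
    (J : Finset (Fin r)) (hJ : Fails c b J) :
    Y456.RL.IndOrd c b hc (fun _ : Unit => fun i => if i ∈ J then (1 : ℤ) else 0) := by
  classical
  obtain ⟨x, hx, hne⟩ := hJ
  have hex : ∃ α : ℚ, Y456.RL.ord (α : ℂ)
      (Y456.RL.multP c b hc (fun i => if i ∈ J then (1 : ℤ) else 0) : RatFunc ℂ) ≠ 0 := by
    by_contra hcon
    push Not at hcon
    apply hne
    have h1 := Y456.RL.frac_zero c b hc (fun i => if i ∈ J then (1 : ℤ) else 0) (by
      intro α
      have h2 := hcon α
      rw [Y456.RL.ord_rat] at h2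
      convert h2 using 3) x hx
    rw [← h1, ← Finset.sum_filter_add_sum_filter_not Finset.univ (· ∈ J)]
    have e1 : ∑ i ∈ Finset.univ.filter (· ∈ J), (((if i ∈ J then (1 : ℤ) else 0 : ℤ) : ℚ) *
        (Int.fract ((c i : ℚ) * x + b i) - 1 / 2)) =
        ∑ i ∈ J, (Int.fract ((c i : ℚ) * x + b i) - 1 / 2) := by
      rw [Finset.filter_univ_mem]
      refine Finset.sum_congr rfl fun i hi => ?_
      rw [if_pos hi]
      simp
    have e2 : ∑ i ∈ Finset.univ.filter (¬ · ∈ J), (((if i ∈ J then (1 : ℤ) else 0 : ℤ) : ℚ) *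
        (Int.fract ((c i : ℚ) * x + b i) - 1 / 2)) = 0 := by
      refine Finset.sum_eq_zero fun i hi => ?_
      rw [if_neg (Finset.mem_filter.1 hi).2]
      simp
    rw [e1, e2, add_zero]
  obtain ⟨α, hα⟩ := hex
  exact Y456.RL.ind_one c b hc _ α hα

theorem one_step {r : ℕ} (c : Fin r → ℤ) (hc : ∀ i, c i ≠ 0) (b : Fin r → ℚ) (L : Set ℝ)
    (hL : IsCompact L) (hL' : ∀ x ∈ L, ∀ i, ∀ k : ℕ, (c i : ℝ) * x + b i ≠ -k)
    (J : Finset (Fin r)) (hJ : Fails c b J) (δ : ℕ) (A ε : ℝ) (hε : 0 < ε) :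
    ∃ C T₀ : ℝ, ∀ T : ℝ, T₀ ≤ T → ∀ u : ℂ, u ≠ 0 → ∀ Y : Finset ℚ,
      (∀ x ∈ Y, (x : ℝ) ∈ L ∧ |(x.num : ℝ)| ≤ T ∧ (x.den : ℝ) ≤ T ∧
        AlgLe δ (T ^ A) ((∏ i ∈ J, Complex.Gamma ((c i : ℂ) * x + b i)) * u)) →
      (Y.card : ℝ) ≤ C * T ^ ε := by
  classical
  set κ : Fin r → ℤ := fun i => if i ∈ J then (1 : ℤ) else 0 with hκ
  have hκ' : Y456.RL.IndOrd c b hc (fun _ : Unit => κ) := indOrd_of_fails c hc b J hJ
  obtain ⟨B, C, T₀, hC, hT₀, H⟩ := Y456.RL.main c b hc (fun _ : Unit => κ) (h := Fin (δ + 1)) hκ'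
    1 1 δ ((fun t : ℝ => (t : ℂ)) '' L) (hL.image Complex.continuous_ofReal) (by
      rintro z ⟨t, ht, rfl⟩ i k h
      apply hL' t ht i k
      have : (((c i : ℝ) * t + b i : ℝ) : ℂ) = ((-k : ℝ) : ℂ) := by
        push_cast
        exact h
      exact_mod_cast this) A ε hε
  refine ⟨C, T₀, fun T hT u hu Y hY => ?_⟩
  have hT0 : 0 < T := by linarith
  let ξ : Fin (δ + 1) → ℂ := fun k => u ^ (k : ℕ)
  obtain ⟨h1, h2⟩ := H ℚ (by simp) (algebraMap ℚ ℂ) ξ T hT
  rw [pow_zero, mul_one] at h2
  let j : ℚ → (Fin 1 → ℚ) := fun x _ => x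
  have hj : Function.Injective j := fun x y h => congrFun h 0
  have hsub : j '' (Y : Set ℚ) ⊆ Y124.ExcNF 1 δ ℚ (algebraMap ℚ ℂ) ξ
      (fun t (_ : Unit) => Y456.RL.P c b κ t) ((fun t : ℝ => (t : ℂ)) '' L) A B T := by
    rintro _ ⟨x, hxY, rfl⟩
    obtain ⟨hx, hxn, hxd, q, hq0, hqd, hqc, hqβ⟩ := hY x hxY
    refine ⟨fun _ => ⟨⟨(x.num : 𝓞 ℚ), (x.den : 𝓞 ℚ), ?_, ?_, ?_, ?_⟩, (x : ℝ), hx, ?_⟩, ?_⟩
    · exact_mod_cast x.den_nz
    · refine Y120.house_le ℚ hT0.le fun φ => ?_
      simpa using hxn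
    · refine Y120.house_le ℚ hT0.le fun φ => ?_
      simpa using hxd
    · simpa [j] using (Rat.num_div_den x).symm
    · simp [j]
    · let P : MvPolynomial (Fin 1 × Unit) ℂ := ∑ k : Fin (δ + 1),
        MvPolynomial.monomial (Finsupp.single ((0 : Fin 1), ()) (k : ℕ))
          (ξ k * ((q.coeff k : ℤ) : ℂ))
      have hcoef : ∀ e, P.coeff e = ∑ k : Fin (δ + 1), ξ k *
          (algebraMap ℚ ℂ) (((if e = Finsupp.single ((0 : Fin 1), ()) (k : ℕ) then
            (q.coeff k : ℤ) else 0 : ℤ) : 𝓞 ℚ) : ℚ) := by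
        intro e
        simp only [P, MvPolynomial.coeff_sum, MvPolynomial.coeff_monomial]
        refine Finset.sum_congr rfl fun k _ => ?_
        by_cases he : Finsupp.single ((0 : Fin 1), ()) (k : ℕ) = e
        · rw [if_pos he, if_pos he.symm]
          simp
        · rw [if_neg he, if_neg fun h => he h.symm]
          simp
      refine ⟨P, ?_, ?_, ?_⟩
      · intro y
        refine (MvPolynomial.degreeOf_sum_le _ _ _).trans ?_
        refine Finset.sup_le fun k _ => ?_
        refine (MvPolynomial.degreeOf_le_iff).2 fun e he => ?_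
        have h3 := MvPolynomial.support_monomial_subset he
        rw [Finset.mem_singleton] at h3
        rw [h3]
        have h4 := k.2
        rcases y with ⟨y, u⟩
        rw [Subsingleton.elim y 0, Finsupp.single_eq_same]
        omega
      · intro e
        refine ⟨fun k => (((if e = Finsupp.single ((0 : Fin 1), ()) (k : ℕ) then
          (q.coeff k : ℤ) else 0 : ℤ)) : 𝓞 ℚ), ?_, hcoef e⟩
        intro k φ
        by_cases he : e = Finsupp.single ((0 : Fin 1), ()) (k : ℕ)
        · simp only [if_pos he]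
          simpa using hqc k
        · simp only [if_neg he]
          simpa using Real.rpow_nonneg hT0.le A
      · have hk : ∃ k : Fin (δ + 1), q.coeff k ≠ 0 := by
          refine ⟨⟨q.natDegree, by omega⟩, ?_⟩
          exact Polynomial.leadingCoeff_ne_zero.2 hq0
        obtain ⟨k, hk⟩ := hk
        refine ⟨Finsupp.single ((0 : Fin 1), ()) (k : ℕ), ?_, ?_⟩
        · rw [hcoef, Finset.sum_eq_single k]
          · rw [if_pos rfl]
            refine mul_ne_zero (pow_ne_zero _ hu) ?_
            simpa using hk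
          · intro k' _ hk'
            rw [if_neg]
            · simp
            · intro h
              have h5 := Finsupp.single_injective _ h
              exact hk' (Fin.ext h5.symm)
          · intro h
            exact absurd (Finset.mem_univ k) h
        · have hval : MvPolynomial.aeval (fun y : Fin 1 × Unit => Y456.RL.P c b κ
              ((algebraMap ℚ ℂ) (j x y.1))) P = 0 := by
            have h6 : Y456.RL.P c b κ ((algebraMap ℚ ℂ) x) =
                ∏ i ∈ J, Complex.Gamma ((c i : ℂ) * x + b i) := by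
              rw [Y456.RL.P, ← Finset.prod_filter_mul_prod_filter_not Finset.univ (· ∈ J)]
              have e1 : ∏ i ∈ Finset.univ.filter (· ∈ J),
                  Complex.Gamma ((c i : ℂ) * (algebraMap ℚ ℂ) x + b i) ^ κ i =
                  ∏ i ∈ J, Complex.Gamma ((c i : ℂ) * x + b i) := by
                rw [Finset.filter_univ_mem]
                refine Finset.prod_congr rfl fun i hi => ?_
                simp only [hκ, if_pos hi, zpow_one]
                simp
              have e2 : ∏ i ∈ Finset.univ.filter (¬ · ∈ J),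
                  Complex.Gamma ((c i : ℂ) * (algebraMap ℚ ℂ) x + b i) ^ κ i = 1 := by
                refine Finset.prod_eq_one fun i hi => ?_
                simp only [hκ, if_neg (Finset.mem_filter.1 hi).2, zpow_zero]
              rw [e1, e2, mul_one]
            simp only [P, map_sum, MvPolynomial.aeval_monomial, j]
            have h7 : ∀ k : Fin (δ + 1), (algebraMap ℂ ℂ) (ξ k * ((q.coeff k : ℤ) : ℂ)) *
                ((Finsupp.single ((0 : Fin 1), ()) (k : ℕ)).prod fun (y : Fin 1 × Unit) e =>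
                  Y456.RL.P c b κ ((algebraMap ℚ ℂ) x) ^ e) =
                ((q.coeff k : ℤ) : ℂ) *
                  ((∏ i ∈ J, Complex.Gamma ((c i : ℂ) * x + b i)) * u) ^ (k : ℕ) := by
              intro k
              rw [Finsupp.prod_single_index (by simp), h6]
              simp only [ξ, Algebra.algebraMap_self, RingHom.id_apply]
              rw [mul_pow]
              ring
            rw [Finset.sum_congr rfl fun k _ => h7 k]
            rw [← hqβ, Polynomial.aeval_eq_sum_range' (n := δ + 1) (by omega), Finset.sum_range]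
            refine Finset.sum_congr rfl fun k _ => ?_
            simp
          rw [hval, norm_zero]
          positivity
  have h3 := Set.ncard_le_ncard hsub h1
  rw [Set.ncard_image_of_injective _ hj, Set.ncard_coe_finset] at h3
  exact le_trans (by exact_mod_cast h3) h2

end Pool.Agent.H48.IG
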