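import Mathlib
import Pool.Agent.H48.IG.Gam

/-!
# Products of gamma values: sums of fractional parts
-/

set_option autoImplicit false

namespace Pool.Agent.H48.IG

open Filter

theorem floor_near (c : ℤ) (b : ℚ) (D : ℕ) (hD : 0 < D) (hb : ∃ k : ℤ, (D : ℚ) * b = k) (hc : c ≠ 0) :
    ∃ n : ℤ, ∀ x : ℚ, 0 < x → x * (D * |(c : ℚ)|) < 1 →
      (∀ k : ℤ, (c : ℚ) * x + b ≠ k) ∧ Int.fract ((c : ℚ) * x + b) = c * x + b - n := by
  obtain ⟨k, hk⟩ := hb
  have hD' : (0 : ℚ) < D := by exact_mod_cast hD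
  rcases lt_or_gt_of_ne hc with h | h
  · have hc' : (c : ℚ) < 0 := by exact_mod_cast h
    have h0 : (D : ℚ) * (⌈b⌉ - 1) + 1 ≤ D * b := by
      have h1 : (⌈b⌉ : ℚ) - 1 < b := by
        have := Int.ceil_lt_add_one b
        linarith
      have h2 : (D : ℚ) * (⌈b⌉ - 1) < k := by
        rw [← hk]
        exact mul_lt_mul_of_pos_left h1 hD'
      have h3 : (D : ℤ) * (⌈b⌉ - 1) < k := by exact_mod_cast h2
      have h4 : (D : ℤ) * (⌈b⌉ - 1) + 1 ≤ k := h3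
      rw [hk]
      exact_mod_cast h4
    refine ⟨⌈b⌉ - 1, fun x hx hx1 => ?_⟩
    rw [abs_of_neg hc'] at hx1
    have h5 : (⌈b⌉ : ℚ) - 1 < c * x + b := by
      have h6 : (D : ℚ) * (⌈b⌉ - 1) < D * (c * x + b) := by nlinarith
      exact lt_of_mul_lt_mul_left h6 hD'.le
    have h7 : (c : ℚ) * x + b < ⌈b⌉ := by
      have := Int.le_ceil b
      nlinarith
    refine ⟨fun l hl => ?_, ?_⟩
    · rw [hl] at h5 h7
      have h8 : ⌈b⌉ - 1 < l := by exact_mod_cast h5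
      have h9 : l < ⌈b⌉ := by exact_mod_cast h7
      omega
    · have h8 : ⌊(c : ℚ) * x + b⌋ = ⌈b⌉ - 1 := by
        rw [Int.floor_eq_iff]
        push_cast
        exact ⟨h5.le, by linarith⟩
      rw [Int.fract, h8]
  · have hc' : (0 : ℚ) < c := by exact_mod_cast h
    have h0 : (D : ℚ) * b + 1 ≤ D * (⌊b⌋ + 1) := by
      have h1 : b < (⌊b⌋ : ℚ) + 1 := Int.lt_floor_add_one b
      have h2 : (k : ℚ) < (D : ℚ) * (⌊b⌋ + 1) := by
        rw [← hk]
        exact mul_lt_mul_of_pos_left h1 hD'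
      have h3 : k < (D : ℤ) * (⌊b⌋ + 1) := by exact_mod_cast h2
      have h4 : k + 1 ≤ (D : ℤ) * (⌊b⌋ + 1) := h3
      rw [hk]
      exact_mod_cast h4
    refine ⟨⌊b⌋, fun x hx hx1 => ?_⟩
    rw [abs_of_pos hc'] at hx1
    have h5 : (c : ℚ) * x + b < ⌊b⌋ + 1 := by
      have h6 : (D : ℚ) * (c * x + b) < D * (⌊b⌋ + 1) := by nlinarith
      exact lt_of_mul_lt_mul_left h6 hD'.le
    have h7 : (⌊b⌋ : ℚ) < (c : ℚ) * x + b := by
      have := Int.floor_le b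
      nlinarith
    refine ⟨fun l hl => ?_, ?_⟩
    · rw [hl] at h5 h7
      have h8 : ⌊b⌋ < l := by exact_mod_cast h7
      have h9 : l < ⌊b⌋ + 1 := by exact_mod_cast h5
      omega
    · have h8 : ⌊(c : ℚ) * x + b⌋ = ⌊b⌋ := by
        rw [Int.floor_eq_iff]
        exact ⟨h7.le, h5⟩
      rw [Int.fract, h8]

theorem fails_of_sum {r : ℕ} (c : Fin r → ℤ) (hc : ∀ i, c i ≠ 0) (b : Fin r → ℚ) (J : Finset (Fin r))
    (hJ : ∑ i ∈ J, c i ≠ 0) : Fails c b J := by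
  classical
  set D : ℕ := ∏ i, (b i).den with hD
  have hD0 : 0 < D := Finset.prod_pos fun i _ => (b i).pos
  have hb : ∀ i, ∃ k : ℤ, (D : ℚ) * b i = k := by
    intro i
    obtain ⟨e, he⟩ : (b i).den ∣ D := Finset.dvd_prod_of_mem _ (Finset.mem_univ i)
    refine ⟨e * (b i).num, ?_⟩
    rw [he]
    push_cast
    have h1 : ((b i).den : ℚ) * b i = (b i).num := by
      rw [mul_comm]
      exact Rat.mul_den_eq_num _
    rw [mul_comm ((b i).den : ℚ), mul_assoc, h1]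
  choose n hn using fun i => floor_near (c i) (b i) D hD0 (hb i) (hc i)
  set M : ℚ := D * (∑ i, |(c i : ℚ)| + 1) with hM
  have hM0 : 0 < M := by
    have h1 : (0 : ℚ) < D := by exact_mod_cast hD0
    have h2 : (0 : ℚ) ≤ ∑ i, |(c i : ℚ)| := Finset.sum_nonneg fun _ _ => abs_nonneg _
    positivity
  have hsmall : ∀ x : ℚ, 0 < x → x * M < 1 → ∀ i, x * (D * |(c i : ℚ)|) < 1 := by
    intro x hx hx1 i
    refine lt_of_le_of_lt ?_ hx1
    have h1 : (0 : ℚ) < D := by exact_mod_cast hD0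
    have h2 : |(c i : ℚ)| ≤ ∑ i, |(c i : ℚ)| :=
      Finset.single_le_sum (f := fun i => |(c i : ℚ)|) (fun _ _ => abs_nonneg _) (Finset.mem_univ i)
    rw [hM]
    refine mul_le_mul_of_nonneg_left (mul_le_mul_of_nonneg_left (by linarith) h1.le) hx.le
  have key : ∀ x : ℚ, 0 < x → x * M < 1 → ∑ i ∈ J, (Int.fract ((c i : ℚ) * x + b i) - 1 / 2) =
      (∑ i ∈ J, (c i : ℚ)) * x + ∑ i ∈ J, (b i - n i - 1 / 2) := by
    intro x hx hx1
    rw [Finset.sum_mul, ← Finset.sum_add_distrib]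
    refine Finset.sum_congr rfl fun i _ => ?_
    rw [(hn i x hx (hsmall x hx hx1 i)).2]
    ring
  have hx1 : (0 : ℚ) < 1 / (2 * M) := by positivity
  have hx2 : (0 : ℚ) < 1 / (3 * M) := by positivity
  have hy1 : 1 / (2 * M) * M < 1 := by
    rw [div_mul_eq_mul_div, div_lt_one (by positivity)]
    linarith
  have hy2 : 1 / (3 * M) * M < 1 := by
    rw [div_mul_eq_mul_div, div_lt_one (by positivity)]
    linarith
  have hc0 : (∑ i ∈ J, (c i : ℚ)) ≠ 0 := by exact_mod_cast hJ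
  by_cases h : (∑ i ∈ J, (c i : ℚ)) * (1 / (2 * M)) + ∑ i ∈ J, (b i - n i - 1 / 2) = 0
  · refine ⟨1 / (3 * M), fun i => (hn i _ hx2 (hsmall _ hx2 hy2 i)).1, ?_⟩
    rw [key _ hx2 hy2]
    intro h'
    have h3 : (∑ i ∈ J, (c i : ℚ)) * (1 / (2 * M) - 1 / (3 * M)) = 0 := by linarith
    rcases mul_eq_zero.1 h3 with h4 | h4
    · exact hc0 h4
    · have h5 : 1 / (3 * M) < 1 / (2 * M) := by
        apply one_div_lt_one_div_of_lt <;> linarith
      linarith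
  · refine ⟨1 / (2 * M), fun i => (hn i _ hx1 (hsmall _ hx1 hy1 i)).1, ?_⟩
    rw [key _ hx1 hy1]
    exact h

end Pool.Agent.H48.IG
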