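import Mathlib
import Pool.Agent.H48.IG.Gam

/-!
# Products of gamma values: selection of many arguments
-/

set_option autoImplicit false

namespace Pool.Agent.H48.IG

open Filter

/-- the height of a rational number -/
def height (x : ℚ) : ℕ := max x.num.natAbs x.den

/-- a family of products, a set of factors, a degree and an exponent -/
abbrev Dat : Type :=
  Σ r : ℕ, {c : Fin r → ℤ // ∀ i, c i ≠ 0} × (Fin r → ℚ) × Finset (Fin r) × ℕ × ℕ

/-- the bad arguments -/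
def Bad (L : Set ℝ) (τ : Dat) (T : ℕ) (u : ℂ) (x : ℚ) : Prop :=
  (∀ y ∈ L, ∀ i, ∀ k : ℕ, ((τ.2.1.1 i : ℤ) : ℝ) * y + τ.2.2.1 i ≠ -k) ∧
  Fails τ.2.1.1 τ.2.2.1 τ.2.2.2.1 ∧
  AlgLe τ.2.2.2.2.1 ((T : ℝ) ^ τ.2.2.2.2.2)
    ((∏ i ∈ τ.2.2.2.1, Complex.Gamma ((τ.2.1.1 i : ℂ) * x + τ.2.2.1 i)) * u)

theorem AlgLe.mono {δ : ℕ} {H H' : ℝ} (h : H ≤ H') {α : ℂ} (hα : AlgLe δ H α) : AlgLe δ H' α := by
  obtain ⟨q, h1, h2, h3, h4⟩ := hα
  exact ⟨q, h1, h2, fun k => (h3 k).trans h, h4⟩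

theorem bad_bound (L : Set ℝ) (hL : IsCompact L) (τ : Dat) (ε : ℝ) (hε : 0 < ε) :
    ∃ C T₀ : ℝ, ∀ T : ℕ, T₀ ≤ T → ∀ u : ℂ, u ≠ 0 → ∀ Y : Finset ℚ,
      (∀ x ∈ Y, (x : ℝ) ∈ L ∧ height x ≤ T ∧ Bad L τ T u x) → (Y.card : ℝ) ≤ C * (T : ℝ) ^ ε := by
  by_cases h : (∀ y ∈ L, ∀ i, ∀ k : ℕ, ((τ.2.1.1 i : ℤ) : ℝ) * y + τ.2.2.1 i ≠ -k) ∧
      Fails τ.2.1.1 τ.2.2.1 τ.2.2.2.1
  · obtain ⟨C, T₀, hC⟩ := one_step τ.2.1.1 τ.2.1.2 τ.2.2.1 L hL h.1 τ.2.2.2.1 h.2 τ.2.2.2.2.1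
      (τ.2.2.2.2.2 : ℝ) ε hε
    refine ⟨C, T₀, fun T hT u hu Y hY => hC T hT u hu Y fun x hx => ?_⟩
    obtain ⟨h1, h2, -, -, h3⟩ := hY x hx
    have h4 : ((x.num.natAbs : ℕ) : ℝ) ≤ T := by exact_mod_cast (le_max_left _ _).trans h2
    refine ⟨h1, ?_, by exact_mod_cast (le_max_right _ _).trans h2, ?_⟩
    · rwa [Nat.cast_natAbs, Int.cast_abs] at h4
    · rw [Real.rpow_natCast]
      exact h3
  · refine ⟨0, 0, fun T _ u _ Y hY => ?_⟩
    have h1 : Y = ∅ := by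
      rw [Finset.eq_empty_iff_forall_notMem]
      intro x hx
      exact h ⟨(hY x hx).2.2.1, (hY x hx).2.2.2.1⟩
    rw [h1, Finset.card_empty, Nat.cast_zero, zero_mul]

theorem H_tendsto (H : ℕ → ℕ) (hH : ∀ η : ℝ, 0 < η → ∀ᶠ s : ℕ in atTop, (s : ℝ) ≤ (H s : ℝ) ^ η) :
    Tendsto (fun s => (H s : ℝ)) atTop atTop := by
  refine tendsto_atTop_mono' _ ?_ tendsto_natCast_atTop_atTop
  filter_upwards [hH 1 one_pos] with s hs
  rwa [Real.rpow_one] at hs

theorem bad_few (L : Set ℝ) (hL : IsCompact L) (H : ℕ → ℕ)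
    (hH : ∀ η : ℝ, 0 < η → ∀ᶠ s : ℕ in atTop, (s : ℝ) ≤ (H s : ℝ) ^ η) (τ : Dat)
    (ε : ℝ) (hε : 0 < ε) :
    ∀ᶠ s : ℕ in atTop, ∀ U : Finset ℂ, U.card ≤ s ^ τ.1 * s → (∀ u ∈ U, u ≠ 0) → ∀ Y : Finset ℚ,
      (∀ x ∈ Y, (x : ℝ) ∈ L ∧ height x ≤ H s ∧ ∃ u ∈ U, Bad L τ (H s) u x) →
      (s : ℝ) * Y.card ≤ (H s : ℝ) ^ ε / 4 := by
  classical
  obtain ⟨C, T₀, hC⟩ := bad_bound L hL τ (ε / 4) (by positivity)
  have hη : 0 < ε / (4 * (τ.1 + 2)) := by positivity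
  have ht := H_tendsto H hH
  have ht' : Tendsto (fun s => (H s : ℝ) ^ (ε / 4)) atTop atTop :=
    (tendsto_rpow_atTop (by positivity)).comp ht
  filter_upwards [hH _ hη, ht.eventually (eventually_ge_atTop (max T₀ 1)),
    ht'.eventually (eventually_ge_atTop (4 * |C|))] with s h1 h2 h3 U hU hU0 Y hY
  have hT : T₀ ≤ H s := (le_max_left _ _).trans h2
  have hT1 : (1 : ℝ) ≤ H s := (le_max_right _ _).trans h2
  have hT0 : (0 : ℝ) < H s := by linarith
  have hp : (0 : ℝ) < (H s : ℝ) ^ (ε / 4) := by positivity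
  have hsub : Y ⊆ U.biUnion fun u => Y.filter fun x => Bad L τ (H s) u x := by
    intro x hx
    obtain ⟨-, -, u, hu, hb⟩ := hY x hx
    exact Finset.mem_biUnion.2 ⟨u, hu, Finset.mem_filter.2 ⟨hx, hb⟩⟩
  have hb : ∀ u ∈ U, ((Y.filter fun x => Bad L τ (H s) u x).card : ℝ) ≤
      |C| * (H s : ℝ) ^ (ε / 4) := by
    intro u hu
    refine (hC (H s) hT u (hU0 u hu) _ fun x hx => ?_).trans
      (mul_le_mul_of_nonneg_right (le_abs_self _) hp.le)
    have h4 := Finset.mem_filter.1 hx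
    exact ⟨(hY x h4.1).1, (hY x h4.1).2.1, h4.2⟩
  have h5 : (Y.card : ℝ) ≤ (s : ℝ) ^ (τ.1 + 1) * (|C| * (H s : ℝ) ^ (ε / 4)) := by
    calc (Y.card : ℝ) ≤ ((U.biUnion fun u => Y.filter fun x => Bad L τ (H s) u x).card : ℝ) := by
          exact_mod_cast Finset.card_le_card hsub
      _ ≤ ∑ u ∈ U, ((Y.filter fun x => Bad L τ (H s) u x).card : ℝ) := by
          exact_mod_cast Finset.card_biUnion_le
      _ ≤ ∑ _u ∈ U, |C| * (H s : ℝ) ^ (ε / 4) := Finset.sum_le_sum fun u hu => hb u hu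
      _ = (U.card : ℝ) * (|C| * (H s : ℝ) ^ (ε / 4)) := by rw [Finset.sum_const, nsmul_eq_mul]
      _ ≤ _ := by
          refine mul_le_mul_of_nonneg_right ?_ (by positivity)
          rw [pow_succ]
          exact_mod_cast hU
  have h6 : (s : ℝ) ^ (τ.1 + 2) ≤ (H s : ℝ) ^ (ε / 4) := by
    calc (s : ℝ) ^ (τ.1 + 2) ≤ ((H s : ℝ) ^ (ε / (4 * (τ.1 + 2)))) ^ (τ.1 + 2) :=
          pow_le_pow_left₀ (Nat.cast_nonneg _) h1 _
      _ = (H s : ℝ) ^ (ε / 4) := by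
          rw [← Real.rpow_natCast, ← Real.rpow_mul hT0.le]
          congr 1
          push_cast
          field_simp
  have h7 : (H s : ℝ) ^ ε = (H s : ℝ) ^ (ε / 4) * (H s : ℝ) ^ (ε / 4) *
      ((H s : ℝ) ^ (ε / 4) * (H s : ℝ) ^ (ε / 4)) := by
    rw [← Real.rpow_add hT0, ← Real.rpow_add hT0]
    ring_nf
  have h8 : (1 : ℝ) ≤ (H s : ℝ) ^ (ε / 4) := Real.one_le_rpow hT1 (by positivity)
  rw [h7]
  set p := (H s : ℝ) ^ (ε / 4) with hpdef
  calc (s : ℝ) * Y.card ≤ s * ((s : ℝ) ^ (τ.1 + 1) * (|C| * p)) :=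
        mul_le_mul_of_nonneg_left h5 (Nat.cast_nonneg _)
    _ = (s : ℝ) ^ (τ.1 + 2) * (|C| * p) := by ring
    _ ≤ p * (|C| * p) := mul_le_mul_of_nonneg_right h6 (by positivity)
    _ ≤ p * (p / 4 * p) := by
        refine mul_le_mul_of_nonneg_left (mul_le_mul_of_nonneg_right ?_ hp.le) hp.le
        linarith
    _ ≤ p * p * (p * p) / 4 := by
        have h9 : p * p * p ≤ p * p * p * p := le_mul_of_one_le_right (by positivity) h8
        nlinarith

/-- the set of the indices of the factors with the largest index -/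
def top {r : ℕ} (i : Fin r → ℕ) : Finset (Fin r) := Finset.univ.filter fun j => ∀ k, i k ≤ i j

open Classical in
/-- the constants of the step `s` -/
noncomputable def cst (τ : Dat) (kk : ℕ → ℂ) (s : ℕ) (p : Fin s → ℚ) : Finset ℂ :=
  ((Finset.univ : Finset ((Fin τ.1 → Fin s) × Fin s)).image fun q =>
    (∏ j ∈ (τ.2.2.2.1)ᶜ, Complex.Gamma ((τ.2.1.1 j : ℂ) * p (q.1 j) + τ.2.2.1 j)) / kk q.2).filter
      (· ≠ 0)

theorem card_cst (τ : Dat) (kk : ℕ → ℂ) (s : ℕ) (p : Fin s → ℚ) :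
    (cst τ kk s p).card ≤ s ^ τ.1 * s := by
  classical
  refine (Finset.card_filter_le _ _).trans (Finset.card_image_le.trans ?_)
  rw [Finset.card_univ, Fintype.card_prod, Fintype.card_fun, Fintype.card_fin, Fintype.card_fin]

theorem height_finite (T : ℕ) : {x : ℚ | height x ≤ T}.Finite := by
  have h2 : {x : ℚ | height x ≤ T} ⊆
      (fun q : ℤ × ℕ => (q.1 : ℚ) / q.2) '' (Set.Icc (-(T : ℤ)) T ×ˢ Set.Iic T) := by
    intro x hx
    have h3 : x.num.natAbs ≤ T := le_trans (le_max_left _ _) hx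
    have h4 : x.den ≤ T := le_trans (le_max_right _ _) hx
    refine ⟨(x.num, x.den), ⟨⟨by simp only; omega, by simp only; omega⟩, h4⟩, ?_⟩
    exact Rat.num_div_den x
  exact (((Set.finite_Icc _ _).prod (Set.finite_Iic _)).image _).subset h2

theorem select (L : Set ℝ) (hL : IsCompact L) (ε : ℝ) (hε : 0 < ε) (X : Set ℚ) (H : ℕ → ℕ)
    (hH : ∀ η : ℝ, 0 < η → ∀ᶠ s : ℕ in atTop, (s : ℝ) ≤ (H s : ℝ) ^ η)
    (hX : ∀ s, (H s : ℝ) ^ ε ≤ ({x ∈ X | (x : ℝ) ∈ L ∧ height x ≤ H s}.ncard : ℝ)) (K : Set ℂ)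
    (hK : K.Countable) : ∃ (s₀ : ℕ) (t : ℕ → ℚ),
      (∀ s, s₀ ≤ s → t s ∈ X ∧ (t s : ℝ) ∈ L ∧ height (t s) ≤ H s ∧ ∀ i < s, t s ≠ t i) ∧
      ∀ (r : ℕ) (c : Fin r → ℤ) (b : Fin r → ℚ), (∀ j, c j ≠ 0) →
        (∀ y ∈ L, ∀ j, ∀ k : ℕ, (c j : ℝ) * y + b j ≠ -k) → ∀ β ∈ K, ∀ δ A : ℕ,
        {i : Fin r → ℕ | (∀ j, s₀ ≤ i j) ∧ Fails c b (top i) ∧ ∃ (j : Fin r) (α : ℂ),
          (∀ k, i k ≤ i j) ∧ AlgLe δ ((H (i j) : ℝ) ^ A) α ∧
          ∏ j, Complex.Gamma ((c j : ℂ) * t (i j) + b j) = α * β}.Finite := by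
  classical
  have : Nonempty Dat := ⟨⟨0, ⟨fun i => i.elim0, fun i => i.elim0⟩, fun i => i.elim0, ∅, 0, 0⟩⟩
  obtain ⟨τ, hτ⟩ := exists_surjective_nat Dat
  obtain ⟨kk, hkk⟩ := Set.countable_iff_exists_subset_range.1 hK
  choose θ hθ using fun a => eventually_atTop.1 (bad_few L hL H hH (τ a) ε hε)
  have ht := H_tendsto H hH
  have ht' : Tendsto (fun s => (H s : ℝ) ^ (ε / 2)) atTop atTop :=
    (tendsto_rpow_atTop (by positivity)).comp ht
  obtain ⟨s₀, hs₀⟩ := eventually_atTop.1 ((hH (ε / 2) (by positivity)).and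
    ((ht.eventually (eventually_ge_atTop 1)).and
      ((ht'.eventually (eventually_ge_atTop 4)).and (eventually_ge_atTop 1))))
  obtain ⟨t, htP⟩ := exists_seq (fun s (p : Fin s → ℚ) x => s₀ ≤ s → x ∈ X ∧ (x : ℝ) ∈ L ∧
    height x ≤ H s ∧ (∀ i, x ≠ p i) ∧
    ∀ a < s, θ a ≤ s → ∀ u ∈ cst (τ a) kk s p, ¬ Bad L (τ a) (H s) u x) (by
      intro s p
      by_cases hs : s₀ ≤ s
      swap
      · exact ⟨0, fun h => absurd h hs⟩
      obtain ⟨h1, h2, h3, h4⟩ := hs₀ s hs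
      by_contra hno
      push Not at hno
      have hfin : {x ∈ X | (x : ℝ) ∈ L ∧ height x ≤ H s}.Finite :=
        (height_finite (H s)).subset fun x hx => hx.2.2
      have hc := hX s
      rw [Set.ncard_eq_toFinset_card _ hfin] at hc
      set Y := hfin.toFinset with hY
      have hYm : ∀ x, x ∈ Y ↔ x ∈ X ∧ (x : ℝ) ∈ L ∧ height x ≤ H s := by
        intro x
        rw [hY, Set.Finite.mem_toFinset]
        rfl
      set Z : ℕ → Finset ℚ := fun a => Y.filter fun x => ∃ u ∈ cst (τ a) kk s p,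
        Bad L (τ a) (H s) u x with hZ
      have hsub : Y ⊆ (Finset.univ.image p) ∪
          ((Finset.range s).filter fun a => θ a ≤ s).biUnion Z := by
        intro x hx
        obtain ⟨hx1, hx2, hx3⟩ := (hYm x).1 hx
        rw [Finset.mem_union]
        by_cases hp : ∀ i, x ≠ p i
        · right
          obtain ⟨a, ha, hθa, u, hu, hb⟩ := (hno x).2 hx1 hx2 hx3 hp
          exact Finset.mem_biUnion.2 ⟨a, Finset.mem_filter.2 ⟨Finset.mem_range.2 ha, hθa⟩,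
              Finset.mem_filter.2 ⟨hx, u, hu, hb⟩⟩
        · left
          push Not at hp
          obtain ⟨i, hi⟩ := hp
          exact Finset.mem_image.2 ⟨i, Finset.mem_univ _, hi.symm⟩
      have hZc : ∀ a, θ a ≤ s → (s : ℝ) * (Z a).card ≤ (H s : ℝ) ^ ε / 4 := by
        intro a ha
        refine hθ a s ha (cst (τ a) kk s p) (card_cst _ _ _ _)
          (fun u hu => (Finset.mem_filter.1 hu).2) (Z a) fun x hx => ?_
        obtain ⟨hx1, hx2⟩ := Finset.mem_filter.1 hx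
        exact ⟨((hYm x).1 hx1).2.1, ((hYm x).1 hx1).2.2, hx2⟩
      have hsp : (0 : ℝ) < s := by exact_mod_cast h4
      have h5 : (s : ℝ) * ∑ a ∈ (Finset.range s).filter (fun a => θ a ≤ s), ((Z a).card : ℝ) ≤
          s * ((H s : ℝ) ^ ε / 4) := by
        rw [Finset.mul_sum]
        calc ∑ a ∈ (Finset.range s).filter (fun a => θ a ≤ s), (s : ℝ) * ((Z a).card : ℝ) ≤
            ∑ _a ∈ (Finset.range s).filter (fun a => θ a ≤ s), (H s : ℝ) ^ ε / 4 :=
              Finset.sum_le_sum fun a ha => hZc a (Finset.mem_filter.1 ha).2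
          _ = (((Finset.range s).filter (fun a => θ a ≤ s)).card : ℝ) * ((H s : ℝ) ^ ε / 4) := by
              rw [Finset.sum_const, nsmul_eq_mul]
          _ ≤ _ := by
              refine mul_le_mul_of_nonneg_right ?_ (by positivity)
              have h6 := Finset.card_filter_le (Finset.range s) (fun a => θ a ≤ s)
              rw [Finset.card_range] at h6
              exact_mod_cast h6
      have h6 : ∑ a ∈ (Finset.range s).filter (fun a => θ a ≤ s), ((Z a).card : ℝ) ≤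
          (H s : ℝ) ^ ε / 4 := le_of_mul_le_mul_left h5 hsp
      have h7 : (Y.card : ℝ) ≤ s + (H s : ℝ) ^ ε / 4 := by
        calc (Y.card : ℝ) ≤ ((Finset.univ.image p) ∪
              ((Finset.range s).filter fun a => θ a ≤ s).biUnion Z).card := by
              exact_mod_cast Finset.card_le_card hsub
          _ ≤ ((Finset.univ.image p).card +
              (((Finset.range s).filter fun a => θ a ≤ s).biUnion Z).card : ℕ) := by
              exact_mod_cast Finset.card_union_le _ _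
          _ ≤ s + ∑ a ∈ (Finset.range s).filter (fun a => θ a ≤ s), ((Z a).card : ℝ) := by
              push_cast
              refine add_le_add ?_ ?_
              · have h8 : (Finset.univ.image p).card ≤ s := by
                  refine Finset.card_image_le.trans ?_
                  rw [Finset.card_univ, Fintype.card_fin]
                exact_mod_cast h8
              · exact_mod_cast Finset.card_biUnion_le
          _ ≤ _ := by linarith
      have hp : (0 : ℝ) < (H s : ℝ) := by linarith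
      have h8 : (H s : ℝ) ^ ε = (H s : ℝ) ^ (ε / 2) * (H s : ℝ) ^ (ε / 2) := by
        rw [← Real.rpow_add hp]
        ring_nf
      have h9 : (s : ℝ) ≤ (H s : ℝ) ^ ε / 4 := by
        rw [h8]
        nlinarith
      have h10 : (0 : ℝ) < (H s : ℝ) ^ ε := by positivity
      linarith)
  refine ⟨s₀, t, fun s hs => ⟨(htP s hs).1, (htP s hs).2.1, (htP s hs).2.2.1,
    fun i hi => (htP s hs).2.2.2.1 ⟨i, hi⟩⟩, fun r c b hc hnp β hβ δ A => ?_⟩
  choose a ha using fun J : Finset (Fin r) => hτ ⟨r, ⟨c, hc⟩, b, J, δ, A⟩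
  obtain ⟨m, hm⟩ := hkk hβ
  set s₁ := max (max (Finset.univ.sup a) (Finset.univ.sup fun J => θ (a J))) m with hs₁
  refine (Set.finite_Iic (fun _ : Fin r => s₁)).subset ?_
  rintro i ⟨his₀, hF, j₁, α, hle, hα, hprod⟩
  rw [Set.mem_Iic]
  intro j₀
  by_contra hj₀
  push Not at hj₀
  set s := i j₁ with hs
  have hs0 : s₁ < s := lt_of_lt_of_le hj₀ (hle j₀)
  set J := top i with hJ
  have hJmem : ∀ j, j ∈ J ↔ i j = s := by
    intro j
    rw [hJ, top, Finset.mem_filter]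
    constructor
    · intro h
      exact le_antisymm (hle j) (h.2 j₁)
    · intro h
      exact ⟨Finset.mem_univ _, fun k => by rw [h]; exact hle k⟩
  have haJ : a J < s := lt_of_le_of_lt
    (((Finset.le_sup (Finset.mem_univ J)).trans (le_max_left _ _)).trans (le_max_left _ _)) hs0
  have hθJ : θ (a J) ≤ s := (((Finset.le_sup (f := fun J => θ (a J)) (Finset.mem_univ J)).trans
    (le_max_right _ _)).trans (le_max_left _ _)).trans hs0.le
  have hms : m < s := lt_of_le_of_lt (le_max_right _ _) hs0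
  have hG : ∀ j : Fin r, Complex.Gamma ((c j : ℂ) * t (i j) + b j) ≠ 0 := by
    intro j
    refine Complex.Gamma_ne_zero fun k hk => hnp (t (i j)) (htP (i j) (his₀ j)).2.1 j k ?_
    have h1 : (((c j : ℝ) * (t (i j) : ℝ) + b j : ℝ) : ℂ) = ((-k : ℝ) : ℂ) := by
      push_cast
      exact hk
    exact_mod_cast h1
  have hβ0 : β ≠ 0 := by
    rintro rfl
    rw [mul_zero] at hprod
    exact (Finset.prod_ne_zero_iff.2 fun j _ => hG j) hprod
  set u : ℂ := (∏ j ∈ Jᶜ, Complex.Gamma ((c j : ℂ) * t (i j) + b j)) / β with hu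
  have hu0 : u ≠ 0 := div_ne_zero (Finset.prod_ne_zero_iff.2 fun j _ => hG j) hβ0
  have humem : u ∈ cst (τ (a J)) kk s (fun k : Fin s => t k) := by
    rw [ha J, cst, Finset.mem_filter]
    refine ⟨Finset.mem_image.2 ⟨(fun j => if h : i j < s then ⟨i j, h⟩ else ⟨m, hms⟩, ⟨m, hms⟩),
      Finset.mem_univ _, ?_⟩, hu0⟩
    simp only
    rw [hm, hu]
    congr 1
    refine Finset.prod_congr rfl fun j hj => ?_
    have h1 : i j < s := lt_of_le_of_ne (hle j) fun h => (Finset.mem_compl.1 hj) ((hJmem j).2 h)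
    rw [dif_pos h1]
  refine (htP s (his₀ j₁)).2.2.2.2 (a J) haJ hθJ u humem ?_
  rw [ha J]
  refine ⟨hnp, hF, ?_⟩
  simp only
  have e1 : (∏ j ∈ J, Complex.Gamma ((c j : ℂ) * t s + b j)) * u = α := by
    rw [hu, mul_div_assoc', div_eq_iff hβ0, ← hprod, ← Finset.prod_mul_prod_compl J]
    congr 1
    refine Finset.prod_congr rfl fun j hj => ?_
    rw [(hJmem j).1 hj]
  rw [e1]
  exact hα

end Pool.Agent.H48.IG
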