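import Mathlib
import Pool.Agent.H48.IG.GamGrow

/-!
# Products of gamma values: the functional equation
-/

set_option autoImplicit false

namespace Pool.Agent.H48.IG

open Filter

/-- `z` is a nonzero rational number with numerator and denominator of absolute value at most `H` -/
def RatLe (H : ℝ) (z : ℂ) : Prop :=
  ∃ p q : ℤ, p ≠ 0 ∧ q ≠ 0 ∧ |(p : ℝ)| ≤ H ∧ |(q : ℝ)| ≤ H ∧ z = p / q

theorem RatLe.one : RatLe 1 1 := ⟨1, 1, one_ne_zero, one_ne_zero, by simp, by simp, by simp⟩

theorem RatLe.mul {H H' : ℝ} {z z' : ℂ} (h : RatLe H z) (h' : RatLe H' z') :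
    RatLe (H * H') (z * z') := by
  obtain ⟨p, q, hp, hq, hpH, hqH, rfl⟩ := h
  obtain ⟨p', q', hp', hq', hpH', hqH', rfl⟩ := h'
  refine ⟨p * p', q * q', mul_ne_zero hp hp', mul_ne_zero hq hq', ?_, ?_, ?_⟩
  · push_cast
    rw [abs_mul]
    exact mul_le_mul hpH hpH' (abs_nonneg _) ((abs_nonneg _).trans hpH)
  · push_cast
    rw [abs_mul]
    exact mul_le_mul hqH hqH' (abs_nonneg _) ((abs_nonneg _).trans hqH)
  · push_cast
    rw [div_mul_div_comm]

theorem RatLe.prod {ι : Type*} (s : Finset ι) (H : ℝ) (z : ι → ℂ) (h : ∀ i ∈ s, RatLe H (z i)) :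
    RatLe (H ^ s.card) (∏ i ∈ s, z i) := by
  classical
  induction s using Finset.induction_on with
  | empty => simpa using RatLe.one
  | insert a s ha ih =>
    rw [Finset.prod_insert ha, Finset.card_insert_of_notMem ha, pow_succ']
    exact (h a (Finset.mem_insert_self a s)).mul (ih fun i hi => h i (Finset.mem_insert_of_mem hi))

theorem AlgLe.mul_rat {δ : ℕ} {H H' : ℝ} {α z : ℂ} (hα : AlgLe δ H α) (hz : RatLe H' z) :
    AlgLe δ (H * H' ^ δ) (α * z) := by
  obtain ⟨q, hq0, hqd, hqH, hqα⟩ := hα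
  obtain ⟨P, Q, hP, hQ, hPH, hQH, rfl⟩ := hz
  have hP' : (P : ℂ) ≠ 0 := by exact_mod_cast hP
  have hQ' : (Q : ℂ) ≠ 0 := by exact_mod_cast hQ
  have hH0 : 0 ≤ H := (abs_nonneg _).trans (hqH 0)
  have hH'0 : 0 ≤ H' := (abs_nonneg _).trans hPH
  set q' : Polynomial ℤ := ∑ k ∈ Finset.range (δ + 1),
    Polynomial.monomial k (q.coeff k * Q ^ k * P ^ (δ - k)) with hq'
  have hcoef : ∀ n, q'.coeff n = if n < δ + 1 then q.coeff n * Q ^ n * P ^ (δ - n) else 0 := by
    intro n
    rw [hq', Polynomial.finsetSum_coeff]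
    simp only [Polynomial.coeff_monomial]
    rw [Finset.sum_ite_eq' (Finset.range (δ + 1)) n]
    simp only [Finset.mem_range]
  refine ⟨q', ?_, ?_, ?_, ?_⟩
  · intro h
    apply hq0
    have h1 : q'.coeff q.natDegree = 0 := by rw [h, Polynomial.coeff_zero]
    rw [hcoef, if_pos (by omega)] at h1
    rcases mul_eq_zero.1 h1 with h2 | h2
    · rcases mul_eq_zero.1 h2 with h3 | h3
      · exact Polynomial.leadingCoeff_eq_zero.1 h3
      · exact absurd h3 (pow_ne_zero _ hQ)
    · exact absurd h2 (pow_ne_zero _ hP)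
  · rw [Polynomial.natDegree_le_iff_coeff_eq_zero]
    intro n hn
    rw [hcoef, if_neg (by omega)]
  · intro n
    rw [hcoef]
    by_cases hn : n < δ + 1
    · rw [if_pos hn]
      push_cast
      rw [abs_mul, abs_mul, abs_pow, abs_pow, mul_assoc]
      refine mul_le_mul (hqH n) ?_ (by positivity) hH0
      calc |(Q : ℝ)| ^ n * |(P : ℝ)| ^ (δ - n) ≤ H' ^ n * H' ^ (δ - n) :=
            mul_le_mul (pow_le_pow_left₀ (abs_nonneg _) hQH _)
              (pow_le_pow_left₀ (abs_nonneg _) hPH _) (by positivity) (by positivity)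
        _ = H' ^ δ := by rw [← pow_add]; congr 1; omega
    · rw [if_neg hn]
      simp only [Int.cast_zero, abs_zero]
      positivity
  · rw [hq', map_sum]
    simp only [Polynomial.aeval_monomial]
    rw [Polynomial.aeval_eq_sum_range' (n := δ + 1) (by omega)] at hqα
    have h1 : ∀ k ∈ Finset.range (δ + 1), (algebraMap ℤ ℂ) (q.coeff k * Q ^ k * P ^ (δ - k)) *
        (α * ((P : ℂ) / Q)) ^ k = (P : ℂ) ^ δ * (q.coeff k • α ^ k) := by
      intro k hk
      have hk' : k ≤ δ := by rw [Finset.mem_range] at hk; omega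
      have h2 : (P : ℂ) ^ δ = (P : ℂ) ^ (δ - k) * (P : ℂ) ^ k := by
        rw [← pow_add]; congr 1; omega
      rw [h2]
      simp only [algebraMap_int_eq, Int.coe_castRingHom, Int.cast_mul, Int.cast_pow, zsmul_eq_mul,
        mul_pow, div_pow]
      field_simp
    rw [Finset.sum_congr rfl h1, ← Finset.mul_sum, hqα, mul_zero]

theorem gamma_shift (m : ℕ) (y : ℂ) (hy : ∀ k : ℕ, y ≠ -k) :
    Complex.Gamma (y + m) = (∏ k ∈ Finset.range m, (y + k)) * Complex.Gamma y := by
  induction m with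
  | zero => simp
  | succ m ih =>
    have h1 : y + m ≠ 0 := fun h => hy m (eq_neg_of_add_eq_zero_left h)
    rw [Nat.cast_succ, ← add_assoc, Complex.Gamma_add_one _ h1, ih, Finset.prod_range_succ]
    ring

/-- the constant of a linear form -/
def cn (m : ℕ) (c : ℤ) (b : ℚ) : ℕ := c.natAbs * b.den + b.num.natAbs + m * b.den + b.den

theorem ratLe_lin (m : ℕ) (c : ℤ) (b t : ℚ) (T : ℕ) (ht : height t ≤ T) (k : ℕ) (hk : k < m)
    (h0 : (c : ℚ) * t + b ≠ -k) : RatLe ((cn m c b : ℝ) * T) ((c : ℂ) * t + b + k) := by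
  have hP : t.num.natAbs ≤ T := (le_max_left _ _).trans ht
  have hQ : t.den ≤ T := (le_max_right _ _).trans ht
  have e1 : (c : ℚ) * t + b + k =
      ((c * t.num * b.den + (b.num + k * b.den) * t.den : ℤ) : ℚ) / ((t.den * b.den : ℤ) : ℚ) := by
    have h1 : (t.den : ℚ) ≠ 0 := by exact_mod_cast t.den_nz
    have h2 : (b.den : ℚ) ≠ 0 := by exact_mod_cast b.den_nz
    have h3 : t = t.num / t.den := (Rat.num_div_den t).symm
    have h4 : b = b.num / b.den := (Rat.num_div_den b).symm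
    rw [eq_div_iff (by push_cast; exact mul_ne_zero h1 h2)]
    push_cast
    have h5 : t * t.den = t.num := Rat.mul_den_eq_num t
    have h6 : b * b.den = b.num := Rat.mul_den_eq_num b
    linear_combination (c : ℚ) * b.den * h5 + (t.den : ℚ) * h6
  refine ⟨c * t.num * b.den + (b.num + k * b.den) * t.den, t.den * b.den, ?_, ?_, ?_, ?_, ?_⟩
  · intro h
    rw [h, Int.cast_zero, zero_div] at e1
    exact h0 (eq_neg_of_add_eq_zero_left e1)
  · exact mul_ne_zero (by exact_mod_cast t.den_nz) (by exact_mod_cast b.den_nz)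
  · have h1 : (c * t.num * b.den + (b.num + k * b.den) * t.den : ℤ).natAbs ≤ cn m c b * T := by
      calc (c * t.num * b.den + (b.num + k * b.den) * t.den : ℤ).natAbs ≤
          c.natAbs * t.num.natAbs * b.den + (b.num.natAbs + k * b.den) * t.den := by
            refine (Int.natAbs_add_le _ _).trans (add_le_add ?_ ?_)
            · rw [Int.natAbs_mul, Int.natAbs_mul, Int.natAbs_natCast]
            · rw [Int.natAbs_mul, Int.natAbs_natCast]
              refine Nat.mul_le_mul_right _ ((Int.natAbs_add_le _ _).trans (add_le_add le_rfl ?_))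
              rw [Int.natAbs_mul, Int.natAbs_natCast, Int.natAbs_natCast]
        _ ≤ c.natAbs * T * b.den + (b.num.natAbs + m * b.den) * T := by
            refine add_le_add ?_ ?_
            · exact Nat.mul_le_mul_right _ (Nat.mul_le_mul_left _ hP)
            · exact Nat.mul_le_mul (add_le_add le_rfl (Nat.mul_le_mul_right _ hk.le)) hQ
        _ ≤ cn m c b * T := by
            unfold cn
            nlinarith [Nat.zero_le (b.den * T)]
    have h2 : (((c * t.num * b.den + (b.num + k * b.den) * t.den : ℤ).natAbs : ℕ) : ℝ) ≤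
        ((cn m c b * T : ℕ) : ℝ) := by exact_mod_cast h1
    rw [Nat.cast_natAbs, Int.cast_abs] at h2
    push_cast at h2 ⊢
    exact h2
  · have h1 : t.den * b.den ≤ cn m c b * T := by
      unfold cn
      nlinarith [Nat.mul_le_mul_right b.den hQ, Nat.zero_le ((c.natAbs * b.den + b.num.natAbs + m * b.den) * T)]
    have h2 : ((t.den * b.den : ℕ) : ℝ) ≤ ((cn m c b * T : ℕ) : ℝ) := by exact_mod_cast h1
    push_cast at h2 ⊢
    rw [abs_of_nonneg (by positivity)]
    exact h2
  · have h1 := congrArg (Rat.cast : ℚ → ℂ) e1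
    push_cast at h1 ⊢
    exact h1

theorem shift {r : ℕ} (c : Fin r → ℤ) (b : Fin r → ℚ) (m δ A : ℕ) :
    ∃ C : ℕ, ∀ T : ℕ, C ≤ T → ∀ a : Fin r → ℚ, (∀ j, height (a j) ≤ T) →
      (∀ j, ∀ k : ℕ, (c j : ℚ) * a j + b j ≠ -k) → ∀ α β : ℂ, AlgLe δ ((T : ℝ) ^ A) α →
      ∏ j, Complex.Gamma ((c j : ℂ) * a j + b j) = α * β →
      ∃ α' : ℂ, AlgLe δ ((T : ℝ) ^ (A + 2 * (m * r) * δ)) α' ∧
        ∏ j, Complex.Gamma ((c j : ℂ) * a j + ((b j + m : ℚ) : ℂ)) = α' * β := by
  classical
  refine ⟨∑ j, cn m (c j) (b j) + 1, fun T hT a ha hnp α β hα hprod => ?_⟩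
  set C : ℕ := ∑ j, cn m (c j) (b j) + 1 with hC
  have hC1 : 1 ≤ C := by omega
  have hCj : ∀ j, cn m (c j) (b j) ≤ C := fun j =>
    (Finset.single_le_sum (f := fun j => cn m (c j) (b j)) (fun _ _ => Nat.zero_le _)
      (Finset.mem_univ j)).trans (Nat.le_succ _)
  have hT1 : (1 : ℝ) ≤ T := by exact_mod_cast hC1.trans hT
  have hT0 : (0 : ℝ) ≤ T := by linarith
  have hy : ∀ j, ∀ k : ℕ, ((c j : ℂ) * a j + b j) ≠ -k := by
    intro j k h
    apply hnp j k
    have h1 : (((c j : ℚ) * a j + b j : ℚ) : ℂ) = ((-k : ℚ) : ℂ) := by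
      push_cast
      exact h
    exact_mod_cast h1
  set z : ℂ := ∏ j : Fin r, ∏ k ∈ Finset.range m, ((c j : ℂ) * a j + b j + k) with hz
  have hRz : RatLe ((((C : ℝ) * T) ^ m) ^ r) z := by
    have h1 := RatLe.prod (Finset.univ : Finset (Fin r)) (((C : ℝ) * T) ^ m)
      (fun j => ∏ k ∈ Finset.range m, ((c j : ℂ) * a j + b j + k)) (fun j _ => by
        have h2 := RatLe.prod (Finset.range m) ((C : ℝ) * T)
          (fun k : ℕ => ((c j : ℂ) * a j + b j + k)) (fun k hk => by
            obtain ⟨p, q, hp, hq, hpH, hqH, he⟩ := ratLe_lin m (c j) (b j) (a j) T (ha j) k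
              (Finset.mem_range.1 hk) (hnp j k)
            have h3 : (cn m (c j) (b j) : ℝ) * T ≤ C * T :=
              mul_le_mul_of_nonneg_right (by exact_mod_cast hCj j) hT0
            exact ⟨p, q, hp, hq, hpH.trans h3, hqH.trans h3, he⟩)
        rwa [Finset.card_range] at h2)
    rwa [Finset.card_univ, Fintype.card_fin] at h1
  refine ⟨α * z, (hα.mul_rat hRz).mono ?_, ?_⟩
  · have h1 : ((C : ℝ) * T) ≤ (T : ℝ) ^ 2 := by
      rw [sq]
      exact mul_le_mul_of_nonneg_right (by exact_mod_cast hT) hT0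
    calc (T : ℝ) ^ A * ((((C : ℝ) * T) ^ m) ^ r) ^ δ ≤
        (T : ℝ) ^ A * ((((T : ℝ) ^ 2) ^ m) ^ r) ^ δ := by
          refine mul_le_mul_of_nonneg_left ?_ (by positivity)
          refine pow_le_pow_left₀ (by positivity) (pow_le_pow_left₀ (by positivity)
            (pow_le_pow_left₀ (by positivity) h1 _) _) _
      _ = (T : ℝ) ^ (A + 2 * (m * r) * δ) := by
          rw [← pow_mul, ← pow_mul, ← pow_mul, ← pow_add]
          congr 1
          ring
  · have h1 : ∀ j, Complex.Gamma ((c j : ℂ) * a j + ((b j + m : ℚ) : ℂ)) =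
        (∏ k ∈ Finset.range m, ((c j : ℂ) * a j + b j + k)) *
          Complex.Gamma ((c j : ℂ) * a j + b j) := by
      intro j
      rw [← gamma_shift m _ (hy j)]
      congr 1
      push_cast
      ring
    rw [Finset.prod_congr rfl fun j _ => h1 j, Finset.prod_mul_distrib, hprod, ← hz]
    ring

end Pool.Agent.H48.IG
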