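import Mathlib
import Pool.Agent.H48.IG.GamGrow

/-!
# Selection of a large set of rational numbers avoiding few bad ones at each step
-/

set_option autoImplicit false

namespace Pool.Agent.H48.IG

open Filter

theorem few_gen (n : ℕ) (B : ℕ → (Fin n → ℚ) → ℚ → Prop) (ε : ℝ) (hε : 0 < ε)
    (hB : ∃ C T₀ : ℝ, ∀ T : ℕ, T₀ ≤ T → ∀ v : Fin n → ℚ, ∀ Y : Finset ℚ,
      (∀ x ∈ Y, height x ≤ T ∧ B T v x) → (Y.card : ℝ) ≤ C * (T : ℝ) ^ (ε / 4)) (H : ℕ → ℕ)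
    (hH : ∀ η : ℝ, 0 < η → ∀ᶠ s : ℕ in atTop, (s : ℝ) ≤ (H s : ℝ) ^ η) :
    ∀ᶠ s : ℕ in atTop, ∀ p : Fin s → ℚ, ∀ Y : Finset ℚ,
      (∀ x ∈ Y, height x ≤ H s ∧ ∃ q : Fin n → Fin s, B (H s) (fun j => p (q j)) x) →
      (s : ℝ) * Y.card ≤ (H s : ℝ) ^ ε / 4 := by
  classical
  obtain ⟨C, T₀, hC⟩ := hB
  have hη : 0 < ε / (4 * (n + 1)) := by positivity
  have ht := H_tendsto H hH
  have ht' : Tendsto (fun s => (H s : ℝ) ^ (ε / 4)) atTop atTop :=
    (tendsto_rpow_atTop (by positivity)).comp ht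
  filter_upwards [hH _ hη, ht.eventually (eventually_ge_atTop (max T₀ 1)),
    ht'.eventually (eventually_ge_atTop (4 * |C|))] with s h1 h2 h3 p Y hY
  have hT : T₀ ≤ H s := (le_max_left _ _).trans h2
  have hT1 : (1 : ℝ) ≤ H s := (le_max_right _ _).trans h2
  have hT0 : (0 : ℝ) < H s := by linarith
  have hp : (0 : ℝ) < (H s : ℝ) ^ (ε / 4) := by positivity
  have hsub : Y ⊆ (Finset.univ : Finset (Fin n → Fin s)).biUnion fun q =>
      Y.filter fun x => B (H s) (fun j => p (q j)) x := by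
    intro x hx
    obtain ⟨-, q, hq⟩ := hY x hx
    exact Finset.mem_biUnion.2 ⟨q, Finset.mem_univ _, Finset.mem_filter.2 ⟨hx, hq⟩⟩
  have hb : ∀ q : Fin n → Fin s, ((Y.filter fun x => B (H s) (fun j => p (q j)) x).card : ℝ) ≤
      |C| * (H s : ℝ) ^ (ε / 4) := by
    intro q
    refine (hC (H s) hT (fun j => p (q j)) _ fun x hx => ?_).trans
      (mul_le_mul_of_nonneg_right (le_abs_self _) hp.le)
    have h4 := Finset.mem_filter.1 hx
    exact ⟨(hY x h4.1).1, h4.2⟩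
  have h5 : (Y.card : ℝ) ≤ (s : ℝ) ^ n * (|C| * (H s : ℝ) ^ (ε / 4)) := by
    calc (Y.card : ℝ) ≤ (((Finset.univ : Finset (Fin n → Fin s)).biUnion fun q =>
          Y.filter fun x => B (H s) (fun j => p (q j)) x).card : ℝ) := by
          exact_mod_cast Finset.card_le_card hsub
      _ ≤ ∑ q : Fin n → Fin s, ((Y.filter fun x => B (H s) (fun j => p (q j)) x).card : ℝ) := by
          exact_mod_cast Finset.card_biUnion_le
      _ ≤ ∑ _q : Fin n → Fin s, |C| * (H s : ℝ) ^ (ε / 4) := Finset.sum_le_sum fun q _ => hb q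
      _ = (s : ℝ) ^ n * (|C| * (H s : ℝ) ^ (ε / 4)) := by
          rw [Finset.sum_const, nsmul_eq_mul, Finset.card_univ, Fintype.card_fun, Fintype.card_fin,
            Fintype.card_fin]
          push_cast
          rfl
  have h6 : (s : ℝ) ^ (n + 1) ≤ (H s : ℝ) ^ (ε / 4) := by
    calc (s : ℝ) ^ (n + 1) ≤ ((H s : ℝ) ^ (ε / (4 * (n + 1)))) ^ (n + 1) :=
          pow_le_pow_left₀ (Nat.cast_nonneg _) h1 _
      _ = (H s : ℝ) ^ (ε / 4) := by
          rw [← Real.rpow_natCast, ← Real.rpow_mul hT0.le]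
          congr 1
          push_cast
          field_simp
  have h7 : (H s : ℝ) ^ ε = (H s : ℝ) ^ (ε / 4) * (H s : ℝ) ^ (ε / 4) *
      ((H s : ℝ) ^ (ε / 4) * (H s : ℝ) ^ (ε / 4)) := by
    rw [← Real.rpow_add hT0, ← Real.rpow_add hT0]
    ring_nf
  have h8 : (1 : ℝ) ≤ (H s : ℝ) ^ (ε / 4) := Real.one_le_rpow hT1 (by positivity)
  rw [h7]
  set P := (H s : ℝ) ^ (ε / 4) with hpdef
  calc (s : ℝ) * Y.card ≤ s * ((s : ℝ) ^ n * (|C| * P)) :=
        mul_le_mul_of_nonneg_left h5 (Nat.cast_nonneg _)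
    _ = (s : ℝ) ^ (n + 1) * (|C| * P) := by ring
    _ ≤ P * (|C| * P) := mul_le_mul_of_nonneg_right h6 (by positivity)
    _ ≤ P * (P / 4 * P) := by
        refine mul_le_mul_of_nonneg_left (mul_le_mul_of_nonneg_right ?_ hp.le) hp.le
        linarith
    _ ≤ P * P * (P * P) / 4 := by
        have h9 : P * P * P ≤ P * P * P * P := le_mul_of_one_le_right (by positivity) h8
        nlinarith

theorem select_gen {ι : Type*} [Countable ι] [Nonempty ι] (ar : ι → ℕ)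
    (B : ∀ a : ι, ℕ → (Fin (ar a) → ℚ) → ℚ → Prop) (ε : ℝ) (hε : 0 < ε)
    (hB : ∀ a, ∃ C T₀ : ℝ, ∀ T : ℕ, T₀ ≤ T → ∀ v : Fin (ar a) → ℚ, ∀ Y : Finset ℚ,
      (∀ x ∈ Y, height x ≤ T ∧ B a T v x) → (Y.card : ℝ) ≤ C * (T : ℝ) ^ (ε / 4))
    (X : Set ℚ) (H : ℕ → ℕ)
    (hH : ∀ η : ℝ, 0 < η → ∀ᶠ s : ℕ in atTop, (s : ℝ) ≤ (H s : ℝ) ^ η)
    (hX : ∀ s, (H s : ℝ) ^ ε ≤ ({x ∈ X | height x ≤ H s}.ncard : ℝ)) :
    ∃ (s₀ : ℕ) (t : ℕ → ℚ),
      (∀ s, s₀ ≤ s → t s ∈ X ∧ height (t s) ≤ H s ∧ ∀ i < s, t s ≠ t i) ∧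
      ∀ a, ∃ s₁, ∀ s, s₁ ≤ s → ∀ q : Fin (ar a) → Fin s,
        ¬ B a (H s) (fun j => t (q j)) (t s) := by
  classical
  obtain ⟨τ, hτ⟩ := exists_surjective_nat ι
  choose θ hθ using fun a => eventually_atTop.1 (few_gen (ar (τ a)) (B (τ a)) ε hε (hB (τ a)) H hH)
  have ht := H_tendsto H hH
  have ht' : Tendsto (fun s => (H s : ℝ) ^ (ε / 2)) atTop atTop :=
    (tendsto_rpow_atTop (by positivity)).comp ht
  obtain ⟨s₀, hs₀⟩ := eventually_atTop.1 ((hH (ε / 2) (by positivity)).and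
    ((ht.eventually (eventually_ge_atTop 1)).and
      ((ht'.eventually (eventually_ge_atTop 4)).and (eventually_ge_atTop 1))))
  obtain ⟨t, htP⟩ := exists_seq (fun s (p : Fin s → ℚ) x => s₀ ≤ s → x ∈ X ∧
    height x ≤ H s ∧ (∀ i, x ≠ p i) ∧
    ∀ a < s, θ a ≤ s → ∀ q : Fin (ar (τ a)) → Fin s, ¬ B (τ a) (H s) (fun j => p (q j)) x) (by
      intro s p
      by_cases hs : s₀ ≤ s
      swap
      · exact ⟨0, fun h => absurd h hs⟩
      obtain ⟨h1, h2, h3, h4⟩ := hs₀ s hs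
      by_contra hno
      push Not at hno
      have hfin : {x ∈ X | height x ≤ H s}.Finite :=
        (height_finite (H s)).subset fun x hx => hx.2
      have hc := hX s
      rw [Set.ncard_eq_toFinset_card _ hfin] at hc
      set Y := hfin.toFinset with hY
      have hYm : ∀ x, x ∈ Y ↔ x ∈ X ∧ height x ≤ H s := by
        intro x
        rw [hY, Set.Finite.mem_toFinset]
        rfl
      set Z : ℕ → Finset ℚ := fun a => Y.filter fun x => ∃ q : Fin (ar (τ a)) → Fin s,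
        B (τ a) (H s) (fun j => p (q j)) x with hZ
      have hsub : Y ⊆ (Finset.univ.image p) ∪
          ((Finset.range s).filter fun a => θ a ≤ s).biUnion Z := by
        intro x hx
        obtain ⟨hx1, hx3⟩ := (hYm x).1 hx
        rw [Finset.mem_union]
        by_cases hp : ∀ i, x ≠ p i
        · right
          obtain ⟨a, ha, hθa, q, hb⟩ := (hno x).2 hx1 hx3 hp
          exact Finset.mem_biUnion.2 ⟨a, Finset.mem_filter.2 ⟨Finset.mem_range.2 ha, hθa⟩,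
              Finset.mem_filter.2 ⟨hx, q, hb⟩⟩
        · left
          push Not at hp
          obtain ⟨i, hi⟩ := hp
          exact Finset.mem_image.2 ⟨i, Finset.mem_univ _, hi.symm⟩
      have hZc : ∀ a, θ a ≤ s → (s : ℝ) * (Z a).card ≤ (H s : ℝ) ^ ε / 4 := by
        intro a ha
        refine hθ a s ha p (Z a) fun x hx => ?_
        obtain ⟨hx1, hx2⟩ := Finset.mem_filter.1 hx
        exact ⟨((hYm x).1 hx1).2, hx2⟩
      have hsp : (0 : ℝ) < s := by exact_mod_cast h4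
      have h5 : (s : ℝ) * ∑ a ∈ (Finset.range s).filter (fun a => θ a ≤ s), ((Z a).card : ℝ) ≤
          s * ((H s : ℝ) ^ ε / 4) := by
        rw [Finset.mul_sum]
        calc ∑ a ∈ (Finset.range s).filter (fun a => θ a ≤ s), (s : ℝ) * ((Z a).card : ℝ) ≤
            ∑ _a ∈ (Finset.range s).filter (fun a => θ a ≤ s), (H s : ℝ) ^ ε / 4 :=
              Finset.sum_le_sum fun a ha => hZc a (Finset.mem_filter.1 ha).2
          _ = (((Finset.range s).filter (fun a => θ a ≤ s)).card : ℝ) * ((H s : ℝ) ^ ε / 4) := by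
              rw [Finset.sum_const, nsmul_eq_mul]
          _ ≤ _ := by
              refine mul_le_mul_of_nonneg_right ?_ (by positivity)
              have h6 := Finset.card_filter_le (Finset.range s) (fun a => θ a ≤ s)
              rw [Finset.card_range] at h6
              exact_mod_cast h6
      have h6 : ∑ a ∈ (Finset.range s).filter (fun a => θ a ≤ s), ((Z a).card : ℝ) ≤
          (H s : ℝ) ^ ε / 4 := le_of_mul_le_mul_left h5 hsp
      have h7 : (Y.card : ℝ) ≤ s + (H s : ℝ) ^ ε / 4 := by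
        calc (Y.card : ℝ) ≤ ((Finset.univ.image p) ∪
              ((Finset.range s).filter fun a => θ a ≤ s).biUnion Z).card := by
              exact_mod_cast Finset.card_le_card hsub
          _ ≤ ((Finset.univ.image p).card +
              (((Finset.range s).filter fun a => θ a ≤ s).biUnion Z).card : ℕ) := by
              exact_mod_cast Finset.card_union_le _ _
          _ ≤ s + ∑ a ∈ (Finset.range s).filter (fun a => θ a ≤ s), ((Z a).card : ℝ) := by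
              push_cast
              refine add_le_add ?_ ?_
              · have h8 : (Finset.univ.image p).card ≤ s := by
                  refine Finset.card_image_le.trans ?_
                  rw [Finset.card_univ, Fintype.card_fin]
                exact_mod_cast h8
              · exact_mod_cast Finset.card_biUnion_le
          _ ≤ _ := by linarith
      have hp : (0 : ℝ) < (H s : ℝ) := by linarith
      have h8 : (H s : ℝ) ^ ε = (H s : ℝ) ^ (ε / 2) * (H s : ℝ) ^ (ε / 2) := by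
        rw [← Real.rpow_add hp]
        ring_nf
      have h9 : (s : ℝ) ≤ (H s : ℝ) ^ ε / 4 := by
        rw [h8]
        nlinarith
      have h10 : (0 : ℝ) < (H s : ℝ) ^ ε := by positivity
      linarith)
  refine ⟨s₀, t, fun s hs => ⟨(htP s hs).1, (htP s hs).2.1,
    fun i hi => (htP s hs).2.2.1 ⟨i, hi⟩⟩, fun a => ?_⟩
  obtain ⟨k, rfl⟩ := hτ a
  refine ⟨max s₀ (max (k + 1) (θ k)), fun s hs q => ?_⟩
  exact (htP s ((le_max_left _ _).trans hs)).2.2.2 k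
    (lt_of_lt_of_le (Nat.lt_succ_self k) (((le_max_left _ _).trans (le_max_right _ _)).trans hs))
    (((le_max_right _ _).trans (le_max_right _ _)).trans hs) q

/-- a superpolynomially growing sequence in `𝒯` -/
theorem scales (𝒯 : Set ℕ) (h𝒯 : 𝒯.Infinite) (f : ℕ → ℝ)
    (hf : ∀ η : ℝ, 0 < η → ∀ᶠ T : ℕ in atTop, f T ≤ (T : ℝ) ^ η) :
    ∃ (g : ℕ → ℝ) (H : ℕ → ℕ), (∀ M : ℝ, ∀ᶠ T : ℕ in atTop, f T + M ≤ g T) ∧
      (∀ s : ℕ, H s ∈ 𝒯) ∧ (∀ s : ℕ, ∀ T ∈ 𝒯, (s : ℝ) < g T → H s ≤ T) ∧ Monotone H ∧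
      ∀ η : ℝ, 0 < η → ∀ᶠ s : ℕ in atTop, (s : ℝ) ≤ (H s : ℝ) ^ η := by
  classical
  set g : ℕ → ℝ := fun T => max (f T) 0 + Real.log T with hg
  have hlog : Tendsto (fun T : ℕ => Real.log (T : ℝ)) atTop atTop :=
    Real.tendsto_log_atTop.comp tendsto_natCast_atTop_atTop
  have hg1 : ∀ η : ℝ, 0 < η → ∀ᶠ T : ℕ in atTop, g T ≤ (T : ℝ) ^ η := by
    intro η hη
    have h1 : ∀ᶠ T : ℕ in atTop, Real.log (T : ℝ) ≤ (T : ℝ) ^ (η / 2) := by
      have h2 := (isLittleO_log_rpow_atTop (half_pos hη)).bound one_pos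
      have h3 := tendsto_natCast_atTop_atTop.eventually h2
      filter_upwards [h3, eventually_ge_atTop 1] with T hT hT1
      rw [one_mul, Real.norm_eq_abs, Real.norm_eq_abs] at hT
      rw [abs_of_nonneg (by positivity : (0 : ℝ) ≤ (T : ℝ) ^ (η / 2))] at hT
      exact (le_abs_self _).trans hT
    have h4 : Tendsto (fun T : ℕ => (T : ℝ) ^ (η / 2)) atTop atTop :=
      (tendsto_rpow_atTop (half_pos hη)).comp tendsto_natCast_atTop_atTop
    filter_upwards [h1, hf _ (half_pos hη), h4.eventually (eventually_ge_atTop 2),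
      eventually_ge_atTop 1] with T h5 h6 h7 h8
    have h9 : (0 : ℝ) < T := by exact_mod_cast h8
    have h10 : (T : ℝ) ^ η = (T : ℝ) ^ (η / 2) * (T : ℝ) ^ (η / 2) := by
      rw [← Real.rpow_add h9]
      ring_nf
    have h11 : max (f T) 0 ≤ (T : ℝ) ^ (η / 2) := max_le h6 (by positivity)
    rw [h10]
    simp only [hg]
    nlinarith
  have hne : ∀ s : ℕ, {T | T ∈ 𝒯 ∧ (s : ℝ) < g T}.Nonempty := by
    intro s
    obtain ⟨T₁, hT₁⟩ := eventually_atTop.1 (hlog.eventually (eventually_gt_atTop (s : ℝ)))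
    obtain ⟨T, hT, hT'⟩ := h𝒯.exists_gt T₁
    refine ⟨T, hT, lt_of_lt_of_le (hT₁ T hT'.le) ?_⟩
    simp only [hg]
    linarith [le_max_right (f T) 0]
  set H : ℕ → ℕ := fun s => sInf {T | T ∈ 𝒯 ∧ (s : ℝ) < g T} with hH
  have hHm : ∀ s, H s ∈ 𝒯 ∧ (s : ℝ) < g (H s) := fun s => Nat.sInf_mem (hne s)
  refine ⟨g, H, ?_, fun s => (hHm s).1, fun s T hT hs => Nat.sInf_le ⟨hT, hs⟩, ?_, ?_⟩
  · intro M
    filter_upwards [hlog.eventually (eventually_ge_atTop M)] with T hT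
    simp only [hg]
    linarith [le_max_left (f T) 0]
  · intro s s' hss
    refine Nat.sInf_le ⟨(hHm s').1, lt_of_le_of_lt ?_ (hHm s').2⟩
    exact_mod_cast hss
  · intro η hη
    obtain ⟨T₁, hT₁⟩ := eventually_atTop.1 (hg1 η hη)
    filter_upwards [eventually_ge_atTop (∑ T ∈ Finset.range T₁, ⌈|g T|⌉₊)] with s hs
    by_cases h : T₁ ≤ H s
    · exact (hHm s).2.le.trans (hT₁ _ h)
    · exfalso
      push Not at h
      have h1 : ⌈|g (H s)|⌉₊ ≤ ∑ T ∈ Finset.range T₁, ⌈|g T|⌉₊ :=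
        Finset.single_le_sum (f := fun T => ⌈|g T|⌉₊) (fun _ _ => Nat.zero_le _)
          (Finset.mem_range.2 h)
      have h2 : g (H s) ≤ s := by
        calc g (H s) ≤ |g (H s)| := le_abs_self _
          _ ≤ ⌈|g (H s)|⌉₊ := Nat.le_ceil _
          _ ≤ s := by exact_mod_cast h1.trans hs
      exact absurd (hHm s).2 (not_lt.2 h2)

/-- **Selection of a large set.** The numbers `t s`, `s ≥ s₀`, form a subset of `X` with at least `f T` elements of height at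
most `T` for all large `T ∈ 𝒯`. -/
theorem large_gen {ι : Type*} [Countable ι] [Nonempty ι] (ar : ι → ℕ)
    (B : ∀ a : ι, ℕ → (Fin (ar a) → ℚ) → ℚ → Prop) (ε : ℝ) (hε : 0 < ε)
    (hB : ∀ a, ∃ C T₀ : ℝ, ∀ T : ℕ, T₀ ≤ T → ∀ v : Fin (ar a) → ℚ, ∀ Y : Finset ℚ,
      (∀ x ∈ Y, height x ≤ T ∧ B a T v x) → (Y.card : ℝ) ≤ C * (T : ℝ) ^ (ε / 4))
    (X : Set ℚ) (𝒯 : Set ℕ) (h𝒯 : 𝒯.Infinite)
    (hX : ∀ T ∈ 𝒯, (T : ℝ) ^ ε ≤ ({x ∈ X | height x ≤ T}.ncard : ℝ))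
    (f : ℕ → ℝ) (hf : ∀ η : ℝ, 0 < η → ∀ᶠ T : ℕ in atTop, f T ≤ (T : ℝ) ^ η) :
    ∃ (H : ℕ → ℕ) (s₀ : ℕ) (t : ℕ → ℚ), Monotone H ∧
      Tendsto (fun s => (H s : ℝ)) atTop atTop ∧ Set.InjOn t (Set.Ici s₀) ∧
      (∀ s, s₀ ≤ s → t s ∈ X ∧ height (t s) ≤ H s) ∧
      (∀ᶠ T : ℕ in atTop, T ∈ 𝒯 → f T ≤ ({x ∈ t '' Set.Ici s₀ | height x ≤ T}.ncard : ℝ)) ∧
      ∀ a, ∃ s₁, ∀ s, s₁ ≤ s → ∀ q : Fin (ar a) → Fin s,
        ¬ B a (H s) (fun j => t (q j)) (t s) := by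
  classical
  obtain ⟨g, H, hg, hH𝒯, hHle, hHm, hH⟩ := scales 𝒯 h𝒯 f hf
  obtain ⟨s₀, t, ht, hE⟩ := select_gen ar B ε hε hB X H hH (fun s => hX _ (hH𝒯 s))
  have hinj : Set.InjOn t (Set.Ici s₀) := by
    intro s hs s' hs' h
    by_contra hne
    rcases lt_or_gt_of_ne hne with h1 | h1
    · exact (ht s' hs').2.2 s h1 h.symm
    · exact (ht s hs).2.2 s' h1 h
  refine ⟨H, s₀, t, hHm, H_tendsto H hH, hinj, fun s hs => ⟨(ht s hs).1, (ht s hs).2.1⟩, ?_, hE⟩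
  filter_upwards [hg s₀] with T hT hT𝒯
  have h1 : t '' (Finset.Ico s₀ ⌈g T⌉₊ : Finset ℕ) ⊆ {x ∈ t '' Set.Ici s₀ | height x ≤ T} := by
    rintro _ ⟨s, hs, rfl⟩
    rw [Finset.coe_Ico, Set.mem_Ico] at hs
    exact ⟨⟨s, hs.1, rfl⟩, (ht s hs.1).2.1.trans (hHle s T hT𝒯 (Nat.lt_ceil.1 hs.2))⟩
  have h2 := Set.ncard_le_ncard h1 ((height_finite T).subset fun x hx => hx.2)
  rw [Set.InjOn.ncard_image (hinj.mono fun s hs => by
    rw [Finset.coe_Ico, Set.mem_Ico] at hs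
    exact hs.1), Set.ncard_coe_finset, Nat.card_Ico] at h2
  have h3 : g T - s₀ ≤ ((⌈g T⌉₊ - s₀ : ℕ) : ℝ) := by
    have h4 : (⌈g T⌉₊ : ℝ) - s₀ ≤ ((⌈g T⌉₊ - s₀ : ℕ) : ℝ) := by
      rw [sub_le_iff_le_add]
      exact_mod_cast le_tsub_add
    linarith [Nat.le_ceil (g T)]
  have h5 : ((⌈g T⌉₊ - s₀ : ℕ) : ℝ) ≤ ({x ∈ t '' Set.Ici s₀ | height x ≤ T}.ncard : ℝ) := by
    exact_mod_cast h2
  linarith

end Pool.Agent.H48.IG
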