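import Mathlib
import Pool.Graph.R_pool_sql_team_seeded_35f281b4.K7.H62.PA.LinMap
import Pool.Graph.R_seed8.W254.HP.Opt
import Pool.Agent.H48.IG.Free

/-!
# Linear maps, formal logarithms and subfamilies
-/

set_option autoImplicit false

namespace Pool.Agent.H48.IG

open Module MvPolynomial Filter

/-- a linear map with prescribed values at a linearly independent family -/
theorem exists_map {κ V W ι : Type} [Field κ] [AddCommGroup V] [Module κ V] [AddCommGroup W]
    [Module κ W] (v : ι → V) (hv : LinearIndependent κ v) (t : ι → W) :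
    ∃ φ : V →ₗ[κ] W, ∀ i, φ (v i) = t i := by
  obtain ⟨φ, hφ⟩ := LinearMap.exists_extend ((Basis.span hv).constr κ t)
  refine ⟨φ, fun i => ?_⟩
  have h := LinearMap.congr_fun hφ (Basis.span hv i)
  rw [Basis.constr_basis, LinearMap.comp_apply, Submodule.subtype_apply, Basis.span_apply] at h
  exact h

/-- the logarithms of the primes are independent of `1` -/
theorem exists_map_primes (s : ℕ → algebraicClosure ℚ ℂ) :
    ∃ φ : ℂ →ₗ[algebraicClosure ℚ ℂ] ℂ, φ 1 = 1 ∧
      ∀ p : ℕ, p.Prime → φ (Real.log p : ℂ) = (s p : ℂ) := by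
  obtain ⟨φ, hφ⟩ := exists_map (fun o : Option Nat.Primes => o.elim (1 : ℂ)
    (fun p => (Real.log (p : ℕ) : ℂ)))
    (Pool.Agent.W254.HP.opt_indep _ Pool.Agent.W254.HP.log_prime_alg
      Pool.Agent.W254.HP.log_primes_indep) (fun o => o.elim (1 : ℂ) (fun p => (s p : ℂ)))
  exact ⟨φ, hφ none, fun p hp => hφ (some ⟨p, hp⟩)⟩

theorem log_fact (m : ℕ) : (Real.log m : ℂ) =
    m.factorization.sum fun p k => (k : algebraicClosure ℚ ℂ) • (Real.log p : ℂ) := by
  rw [Real.log_nat_eq_sum_factorization, Finsupp.sum, Finsupp.sum, Complex.ofReal_sum]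
  refine Finset.sum_congr rfl fun p _ => ?_
  rw [Algebra.smul_def, map_natCast]
  push_cast
  rfl

end Pool.Agent.H48.IG
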