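import Mathlib
import Pool.Graph.R_seed8.R350.Inst
import Pool.Graph.R_seed8.R350.GU

/-!
# Infinite groups for which the four exponentials conjecture holds: one step
-/

set_option autoImplicit false

namespace Pool.Agent.H48.IG

open Module Filter

/-- linear forms in `1` and logarithms of algebraic numbers -/
noncomputable def LF : Submodule (algebraicClosure ℚ ℂ) ℂ :=
  Submodule.span (algebraicClosure ℚ ℂ) ({1} ∪ {z : ℂ | IsAlgebraic ℚ (Complex.exp z)})

/-- `y` can be added to `V` -/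
def Step (V : Submodule (algebraicClosure ℚ ℂ) ℂ) (y : ℂ) : Prop :=
  y ∉ V ∧ ∀ l m : Fin 2 → ℂ, (∀ j, l j ∈ V ⊔ Submodule.span (algebraicClosure ℚ ℂ) {y}) →
    (∀ j, m j ∈ LF ⊔ V) → l 0 * m 1 = l 1 * m 0 → LinearIndependent (algebraicClosure ℚ ℂ) l →
    (∃ ρ : algebraicClosure ℚ ℂ, ∀ j, m j = ρ • l j) ∨ ∀ j, l j ∈ V

theorem step_of_good2f (V : Submodule (algebraicClosure ℚ ℂ) ℂ) {f : Fin 1 → ℂ}
    (h : Pool.Agent.R350.Good2f V Pool.Agent.H301R2.SSE.Lt f) : Step V (f 0) := by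
  have hr : Set.range f = {f 0} := by
    ext z
    simp only [Set.mem_range, Set.mem_singleton_iff]
    constructor
    · rintro ⟨i, rfl⟩
      rw [Subsingleton.elim i 0]
    · rintro rfl
      exact ⟨0, rfl⟩
  obtain ⟨h1, h2⟩ := h
  rw [hr] at h1 h2
  refine ⟨fun hmem => ?_, fun l m hl hm hdet hli => h2 l m hl (fun j => ?_) hdet hli⟩
  · rw [sup_eq_left.2 (by rwa [Submodule.span_singleton_le_iff_mem])] at h1
    omega
  · rw [Submodule.span_eq]
    exact hm j

theorem ev_log (c : ℕ) (ε : ℝ) (hε : 0 < ε) :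
    ∀ᶠ x : ℕ in atTop, 16 ≤ x ∧ (c : ℝ) * Real.log (Real.log x) ^ c / Real.log x * x <
      x / Real.log x ^ (1 - ε) := by
  have h1 : ∀ᶠ u : ℝ in atTop, (c : ℝ) * Real.log u ^ c < u ^ ε := by
    have h := isLittleO_log_rpow_rpow_atTop (c : ℝ) hε
    have h2 := h.def (c := 1 / ((c : ℝ) + 1)) (by positivity)
    filter_upwards [h2, eventually_gt_atTop 1] with u hu h1u
    have h3 : 0 < Real.log u := Real.log_pos h1u
    rw [Real.rpow_natCast, Real.norm_of_nonneg (by positivity),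
      Real.norm_of_nonneg (by positivity)] at hu
    have h4 : 0 < u ^ ε := by positivity
    calc (c : ℝ) * Real.log u ^ c ≤ c * (1 / ((c : ℝ) + 1) * u ^ ε) := by gcongr
      _ = (c / ((c : ℝ) + 1)) * u ^ ε := by ring
      _ < 1 * u ^ ε := by
        apply mul_lt_mul_of_pos_right _ h4
        rw [div_lt_one (by positivity)]
        linarith
      _ = u ^ ε := one_mul _
  have h2 := (Real.tendsto_log_atTop.comp tendsto_natCast_atTop_atTop).eventually h1
  filter_upwards [h2, eventually_ge_atTop 16] with x hx h16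
  refine ⟨h16, ?_⟩
  simp only [Function.comp_apply] at hx
  have hx1 : (16 : ℝ) ≤ x := by exact_mod_cast h16
  have hl : 0 < Real.log x := Real.log_pos (by linarith)
  rw [Real.rpow_sub hl, Real.rpow_one]
  have h3 : (x : ℝ) / (Real.log x / Real.log x ^ ε) = Real.log x ^ ε / Real.log x * x := by
    field_simp
  rw [h3]
  gcongr

/-- one step with many integers -/
theorem step_integers (m : ℕ) (ε : ℝ) (hε : 0 < ε) : ∃ T : ℕ, ∀ x : ℕ, T ≤ x →
    ∀ V : Submodule (algebraicClosure ℚ ℂ) ℂ, Module.Finite (algebraicClosure ℚ ℂ) V →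
    finrank (algebraicClosure ℚ ℂ) V ≤ m → ∀ A : Finset ℕ, A ⊆ Finset.Icc 1 x →
    (x : ℝ) / Real.log x ^ (1 - ε) ≤ A.card → ∃ a ∈ A, Step V (Real.log a : ℂ) := by
  classical
  obtain ⟨c, hc⟩ := Pool.Agent.R350.rate_two 1 m 0
  obtain ⟨T, hT⟩ := eventually_atTop.1 (ev_log c ε hε)
  refine ⟨T, fun x hx V hVf hVm A hA hcard => ?_⟩
  obtain ⟨h16, hlt⟩ := hT x hx
  by_contra hno
  push Not at hno
  have h := hc x h16 (algebraicClosure ℚ ℂ) (algebraicClosure ℚ ℂ) ℂ
    (fun n : ℕ => (Real.log n : ℂ)) _ Pool.Agent.R350.setup_complex V hVf hVm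
    (A.image fun a => (fun _ : Fin 1 => a)) (by
      intro a ha
      obtain ⟨b, hb, rfl⟩ := Finset.mem_image.1 ha
      rw [Fintype.mem_piFinset]
      intro _
      have := Finset.mem_Icc.1 (hA hb)
      exact Finset.mem_Ioc.2 ⟨by omega, this.2⟩) (by
      intro a ha hg
      obtain ⟨b, hb, rfl⟩ := Finset.mem_image.1 ha
      exact hno b hb (step_of_good2f V (f := fun _ => (Real.log b : ℂ)) hg))
  rw [Finset.card_image_of_injective _ (fun a b hab => congrFun hab 0)] at h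
  rw [pow_one] at h
  unfold Pool.Agent.TH681.QC.er at h
  linarith

/-- one step with many sums of three logarithms -/
theorem step_sums (m : ℕ) : ∃ T : ℕ, ∃ δ : ℝ, 0 < δ ∧ ∀ N : ℕ, T ≤ N →
    ∀ V : Submodule (algebraicClosure ℚ ℂ) ℂ, Module.Finite (algebraicClosure ℚ ℂ) V →
    finrank (algebraicClosure ℚ ℂ) V ≤ m → ∀ z : ℂ, z ∈ LF → ∀ l : Fin N → ℂ,
    (∀ i, IsAlgebraic ℚ (Complex.exp (l i))) → LinearIndependent ℚ l →
    ∀ c : Fin 3 → ℂ, (∀ j, c j ≠ 0 ∧ IsAlgebraic ℚ (c j)) → ∀ F : Finset (Fin 3 → Fin N),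
    (N : ℝ) ^ (3 - δ) ≤ F.card → ∃ f ∈ F, Step V (z + ∑ j, c j * l (f j)) := by
  classical
  obtain ⟨δ, hδ, K', hK', h⟩ := Pool.Agent.R350.few_two 1 m 0
  have hev : ∀ᶠ N : ℕ in atTop, 1 ≤ N ∧ K' < (N : ℝ) ^ (δ / 2) :=
    (eventually_ge_atTop 1).and (((tendsto_rpow_atTop (by positivity : 0 < δ / 2)).comp
      tendsto_natCast_atTop_atTop).eventually (eventually_gt_atTop K'))
  obtain ⟨T, hT⟩ := eventually_atTop.1 hev
  refine ⟨T, δ / 2, by positivity, fun N hN V hVf hVm z hz l hl hli c hc F hF => ?_⟩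
  obtain ⟨hN1, hNK⟩ := hT N hN
  have hN0 : (0 : ℝ) < N := by exact_mod_cast hN1
  by_contra hno
  push Not at hno
  have hcQ : ∀ j, c j ∈ algebraicClosure ℚ ℂ := fun j => mem_algebraicClosure_iff.2 (hc j).2
  have h' := h (algebraicClosure ℚ ℂ) (algebraicClosure ℚ ℂ) ℂ Pool.Agent.H301R2.SSE.Lt
      Pool.Agent.R350.setup_complex.hyp Pool.Agent.R350.setup_complex.one V hVf hVm (fun _ => z)
      (fun _ => hz) N l (fun i => Pool.Agent.H301R2.SSE.Lt_log (hl i))
      (Pool.Agent.R350.li_complex l hl hli)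
      (fun _ j => ⟨c j, hcQ j⟩)
      (fun _ j h0 => (hc j).1 (congrArg Subtype.val h0))
      (F.image fun f => (fun _ : Fin 1 => f)) (by
        intro f hf hg
        obtain ⟨b, hb, rfl⟩ := Finset.mem_image.1 hf
        refine hno b hb ?_
        exact step_of_good2f V hg)
  rw [Finset.card_image_of_injective _ (fun a b hab => congrFun hab 0)] at h'
  have h2 : K' * (N : ℝ) ^ (1 * 3) * (N : ℝ) ^ (-δ) < (N : ℝ) ^ (3 - δ / 2) := by
    have e1 : (N : ℝ) ^ (3 - δ / 2) = (N : ℝ) ^ (δ / 2) * ((N : ℝ) ^ (1 * 3) * (N : ℝ) ^ (-δ)) := by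
      rw [← Real.rpow_natCast, ← Real.rpow_add hN0, ← Real.rpow_add hN0]
      congr 1
      push_cast
      ring
    rw [e1, mul_assoc]
    exact mul_lt_mul_of_pos_right hNK (by positivity)
  exact absurd (hF.trans h') (not_le.2 h2)

end Pool.Agent.H48.IG
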